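import Pool.Agent.H666.CF.Tm

/-! The characteristic function of short sums over primes. -/

set_option linter.unusedSectionVars false

open Finset Complex MeasureTheory

namespace Pool.Agent.H666.CF

/-- the Taylor remainder -/
noncomputable def Rn (n : ℕ) (y : ℝ) : ℂ :=
  Complex.exp (I * y) - ∑ m ∈ Finset.range n, (I * (y : ℂ)) ^ m / m.factorial

lemma Rn_deriv (n : ℕ) (y : ℝ) : HasDerivAt (Rn (n + 1)) (I * Rn n y) y := by
  have h0 : HasDerivAt (fun y : ℝ => I * (y : ℂ)) I y := by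
    have h2 : HasDerivAt (fun s : ℝ => (s : ℂ)) 1 y := Complex.ofRealCLM.hasDerivAt
    simpa using h2.const_mul I
  have h1 : HasDerivAt (fun y : ℝ => Complex.exp (I * (y : ℂ))) (Complex.exp (I * y) * I) y := h0.cexp
  have h2 : HasDerivAt (fun y : ℝ => ∑ m ∈ Finset.range (n + 1), (I * (y : ℂ)) ^ m / m.factorial)
      (∑ m ∈ Finset.range (n + 1), ((m : ℂ) * (I * (y : ℂ)) ^ (m - 1) * I) / m.factorial) y := by
    have := HasDerivAt.fun_sum (u := Finset.range (n + 1))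
      (A := fun m => fun y : ℝ => (I * (y : ℂ)) ^ m / m.factorial)
      (A' := fun m => ((m : ℂ) * (I * (y : ℂ)) ^ (m - 1) * I) / m.factorial) (x := y)
      (fun m _ => (h0.pow m).div_const _)
    exact this
  have h3 : ∑ m ∈ Finset.range (n + 1), ((m : ℂ) * (I * (y : ℂ)) ^ (m - 1) * I) / m.factorial =
      I * ∑ m ∈ Finset.range n, (I * (y : ℂ)) ^ m / m.factorial := by
    rw [Finset.sum_range_succ', Finset.mul_sum]
    simp only [Nat.cast_zero, zero_mul, zero_div, add_zero]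
    apply Finset.sum_congr rfl
    intro m _
    rw [Nat.add_sub_cancel, Nat.factorial_succ]
    have : (m.factorial : ℂ) ≠ 0 := by exact_mod_cast (Nat.factorial_pos m).ne'
    have h4 : ((m : ℂ) + 1) ≠ 0 := by exact_mod_cast Nat.succ_ne_zero m
    push_cast
    field_simp
  have h4 := h1.sub h2
  rw [h3] at h4
  refine h4.congr_deriv ?_
  unfold Rn
  ring

lemma Rn_bound_pos (n : ℕ) : ∀ y : ℝ, 0 ≤ y → ‖Rn n y‖ ≤ y ^ n / n.factorial := by
  induction n with
  | zero =>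
    intro y _
    unfold Rn
    simp only [Finset.range_zero, Finset.sum_empty, sub_zero, pow_zero, Nat.factorial_zero,
      Nat.cast_one, div_one]
    rw [mul_comm, Complex.norm_exp_ofReal_mul_I]
  | succ n ih =>
    intro y hy
    have hB : ∀ x : ℝ, HasDerivAt (fun x : ℝ => x ^ (n + 1) / ((n + 1).factorial : ℝ))
        (x ^ n / n.factorial) x := by
      intro x
      have h1 := (hasDerivAt_pow (n + 1) x).div_const ((n + 1).factorial : ℝ)
      refine h1.congr_deriv ?_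
      rw [Nat.factorial_succ]
      have : (n.factorial : ℝ) ≠ 0 := by exact_mod_cast (Nat.factorial_pos n).ne'
      have h4 : ((n : ℝ) + 1) ≠ 0 := by positivity
      push_cast
      field_simp
    have hc : ContinuousOn (Rn (n + 1)) (Set.Icc 0 y) := fun x _ =>
      (Rn_deriv n x).continuousAt.continuousWithinAt
    refine image_norm_le_of_norm_deriv_right_le_deriv_boundary (f := Rn (n + 1))
      (f' := fun x => I * Rn n x) (a := 0) (b := y)
      (B := fun x : ℝ => x ^ (n + 1) / ((n + 1).factorial : ℝ)) (B' := fun x => x ^ n / n.factorial)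
      hc (fun x _ => (Rn_deriv n x).hasDerivWithinAt) ?_ hB ?_ ⟨hy, le_rfl⟩
    · unfold Rn
      rw [Finset.sum_range_succ']
      simp
    · intro x hx
      rw [norm_mul, Complex.norm_I, one_mul]
      exact ih x hx.1

lemma Rn_neg (n : ℕ) (y : ℝ) : Rn n (-y) = (starRingEnd ℂ) (Rn n y) := by
  unfold Rn
  rw [map_sub, ← Complex.exp_conj, map_sum]
  congr 1
  · congr 1
    rw [map_mul, Complex.conj_I, Complex.conj_ofReal]
    push_cast
    ring
  · apply Finset.sum_congr rfl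
    intro m _
    rw [map_div₀, map_pow, map_mul, Complex.conj_I, Complex.conj_ofReal]
    simp

lemma Rn_bound (n : ℕ) (y : ℝ) : ‖Rn n y‖ ≤ |y| ^ n / n.factorial := by
  rcases le_total 0 y with h | h
  · rw [abs_of_nonneg h]
    exact Rn_bound_pos n y h
  · rw [abs_of_nonpos h]
    have h1 := Rn_bound_pos n (-y) (by linarith)
    rwa [Rn_neg, Complex.norm_conj] at h1

variable {ι : Type} [Fintype ι] [DecidableEq ι]

/-- **the characteristic function of short sums over primes** -/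
theorem charf (u B : ℝ) (hB : 0 ≤ B) {ε : ℝ} (hε : 0 < ε) : ∃ J : ℕ, ∃ ρ0 : ℝ, 0 < ρ0 ∧ ρ0 ≤ 1 ∧
    ∀ (ι : Type) [Fintype ι] [DecidableEq ι] (P : ι → ℕ), (∀ p, (P p).Prime) →
      Function.Injective P → ∀ X : ℕ, 1 ≤ X → (∀ p, P p ≤ X) → ∀ (a : ι → ℂ) (ρ : ℝ), ρ ≤ ρ0 →
      (∀ p, ‖a p‖ ≤ ρ) → ∑ p, ‖a p‖ ^ 2 ≤ B → ∀ V1 V2 : ℝ, V1 < V2 →
      (X : ℝ) ^ J * (1 + ∑ p, ‖a p‖) ^ J ≤ ρ0 * (V2 - V1) →
      ‖(∫ t in V1..V2, Complex.exp (I * (u * Xt P a t : ℝ))) -
        ((V2 - V1 : ℝ) : ℂ) * (Real.exp (-(u ^ 2 * (∑ p, ‖a p‖ ^ 2) / 4)) : ℂ)‖ ≤ ε * (V2 - V1) := by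
  classical
  -- the parameters
  set w : ℝ := |u| + 1 with hw
  have hw1 : 1 ≤ w := by
    have := abs_nonneg u
    linarith
  set s : ℝ := 2 * w with hs
  set E : ℝ := 2 * Real.exp (s ^ 2 * B / 2) with hE
  have hE0 : 0 < E := by positivity
  obtain ⟨J0, hJ0⟩ : ∃ J0 : ℕ, E * (1 / 4 : ℝ) ^ J0 ≤ ε / 8 := by
    have h1 : Filter.Tendsto (fun n : ℕ => E * (1 / 4 : ℝ) ^ n) Filter.atTop (nhds (E * 0)) :=
      (tendsto_pow_atTop_nhds_zero_of_lt_one (by norm_num) (by norm_num)).const_mul E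
    rw [mul_zero] at h1
    have h2 := h1.eventually (gt_mem_nhds (show (0 : ℝ) < ε / 8 by linarith))
    obtain ⟨n, hn⟩ := h2.exists
    exact ⟨n, hn.le⟩
  set J : ℕ := 2 * J0 with hJ
  have hJe : Even J := ⟨J0, by omega⟩
  set Q : ℝ := (∑ m ∈ Finset.range (J + 1), w ^ m / m.factorial) + 1 with hQ
  have hQ0 : 1 ≤ Q := by
    have : 0 ≤ ∑ m ∈ Finset.range (J + 1), w ^ m / (m.factorial : ℝ) :=
      Finset.sum_nonneg fun _ _ => by positivity
    linarith
  set ρ0 : ℝ := min (1 / s) (min (ε / (16 * Q * w ^ 3 * (B + 1))) (ε / (16 * Q))) with hρ0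
  have hs0 : 2 ≤ s := by linarith
  have hρpos : 0 < ρ0 := by
    apply lt_min (by positivity)
    apply lt_min
    · positivity
    · positivity
  have hρs : ρ0 ≤ 1 / s := min_le_left _ _
  have hρ1 : ρ0 ≤ 1 := by
    refine hρs.trans ?_
    rw [div_le_one (by linarith)]
    linarith
  have hρ2 : ρ0 ≤ ε / (16 * Q * w ^ 3 * (B + 1)) := (min_le_right _ _).trans (min_le_left _ _)
  have hρ3 : ρ0 ≤ ε / (16 * Q) := (min_le_right _ _).trans (min_le_right _ _)
  refine ⟨J, ρ0, hρpos, hρ1, ?_⟩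
  intro ι _ _ P hP hinj X hX hPX a ρ hρ ha hv V1 V2 hV hlen
  obtain ⟨v, hvd⟩ : ∃ v, v = ∑ p, ‖a p‖ ^ 2 := ⟨_, rfl⟩
  rw [← hvd] at hv ⊢
  have hv0 : 0 ≤ v := by rw [hvd]; exact Finset.sum_nonneg fun _ _ => by positivity
  set D := V2 - V1 with hD
  have hD0 : 0 < D := by linarith
  set N : ℕ := J + 3 with hN
  have hN3 : 3 ≤ N := by omega
  -- the case of no coefficient is included: replace `ρ` by `ρ0`
  have haρ : ∀ p, ‖a p‖ ≤ ρ0 := fun p => (ha p).trans hρ
  have hsρ : |s| * ρ0 ≤ 1 := by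
    rw [abs_of_pos (by linarith)]
    calc s * ρ0 ≤ s * (1 / s) := mul_le_mul_of_nonneg_left hρs (by linarith)
      _ = 1 := by field_simp
  have huρ : |u| * ρ0 ≤ 1 := by
    refine le_trans (mul_le_mul_of_nonneg_right ?_ hρpos.le) hsρ
    rw [abs_of_pos (show 0 < s by linarith)]
    have := abs_nonneg u
    linarith
  -- the model
  have hchar := Ex_char hN3 a haρ huρ
  rw [← hvd] at hchar
  have hchar' : 2 * |u| ^ 3 * ρ0 * v ≤ ε / 8 := by
    have h1 : |u| ^ 3 ≤ w ^ 3 := pow_le_pow_left₀ (abs_nonneg u) (by linarith) 3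
    have h2 : ρ0 * (16 * Q * w ^ 3 * (B + 1)) ≤ ε := by
      rwa [le_div_iff₀ (by positivity)] at hρ2
    have h3 : w ^ 3 * ρ0 * (B + 1) ≤ Q * (w ^ 3 * ρ0 * (B + 1)) :=
      le_mul_of_one_le_left (by positivity) hQ0
    have h4 : |u| ^ 3 * ρ0 * v ≤ w ^ 3 * ρ0 * (B + 1) := by
      apply mul_le_mul (mul_le_mul_of_nonneg_right h1 hρpos.le) (by linarith) hv0 (by positivity)
    linarith
  have hmom := Er_pow hN3 a haρ hsρ hJe
  rw [← hvd] at hmom
  -- moments of the model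
  have hEv : 2 * Real.exp (s ^ 2 * v / 2) ≤ E := by
    rw [hE]
    apply mul_le_mul_of_nonneg_left _ (by norm_num)
    apply Real.exp_le_exp.2
    apply div_le_div_of_nonneg_right _ (by norm_num)
    exact mul_le_mul_of_nonneg_left hv (sq_nonneg s)
  have hf : (0 : ℝ) < J.factorial := by exact_mod_cast Nat.factorial_pos J
  obtain ⟨m, hm⟩ : ∃ m, m = Er N (fun ω : ι → Fin N => Xw N a ω ^ J) := ⟨_, rfl⟩
  have hmJ : |u| ^ J * m / J.factorial ≤ ε / 8 := by
    have h1 : Er N (fun ω : ι → Fin N => (s * Xw N a ω) ^ J) = s ^ J * m := by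
      rw [hm, ← Er_const_mul]
      congr 1
      funext ω
      rw [mul_pow]
    rw [h1] at hmom
    have hm0 : 0 ≤ m := by
      rw [hm]
      unfold Er
      exact div_nonneg (Finset.sum_nonneg fun ω _ => hJe.pow_nonneg _) (by positivity)
    have h2 : |u| ^ J * (2 : ℝ) ^ J ≤ s ^ J := by
      rw [← mul_pow]
      apply pow_le_pow_left₀ (by positivity)
      have := abs_nonneg u
      linarith
    have h3 : |u| ^ J * m * (2 : ℝ) ^ J ≤ J.factorial * E := by
      calc |u| ^ J * m * (2 : ℝ) ^ J = (|u| ^ J * (2 : ℝ) ^ J) * m := by ring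
        _ ≤ s ^ J * m := mul_le_mul_of_nonneg_right h2 hm0
        _ ≤ J.factorial * (2 * Real.exp (s ^ 2 * v / 2)) := hmom
        _ ≤ _ := mul_le_mul_of_nonneg_left hEv hf.le
    have h4 : (2 : ℝ) ^ J = 4 ^ J0 := by rw [hJ, pow_mul]; norm_num
    rw [div_le_iff₀ hf]
    rw [h4] at h3
    have h5 : (4 : ℝ) ^ J0 * (1 / 4 : ℝ) ^ J0 = 1 := by rw [← mul_pow]; norm_num
    have h6 : |u| ^ J * m = |u| ^ J * m * (4 : ℝ) ^ J0 * (1 / 4 : ℝ) ^ J0 := by
      rw [mul_assoc, h5, mul_one]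
    rw [h6]
    calc |u| ^ J * m * (4 : ℝ) ^ J0 * (1 / 4 : ℝ) ^ J0 ≤ J.factorial * E * (1 / 4 : ℝ) ^ J0 :=
          mul_le_mul_of_nonneg_right h3 (by positivity)
      _ = J.factorial * (E * (1 / 4 : ℝ) ^ J0) := by ring
      _ ≤ J.factorial * (ε / 8) := mul_le_mul_of_nonneg_left hJ0 hf.le
      _ = _ := by ring
  -- time moments against the model
  set A1 : ℝ := ∑ p, ‖a p‖ with hA1
  have hA10 : 0 ≤ A1 := Finset.sum_nonneg fun _ _ => norm_nonneg _
  have hXr : (1 : ℝ) ≤ X := by exact_mod_cast hX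
  have hdiff : ∀ j ≤ J, |(∫ t in V1..V2, Xt P a t ^ j) -
      D * Er N (fun ω : ι → Fin N => Xw N a ω ^ j)| ≤ 2 * (ρ0 * D) := by
    intro j hj
    refine (moment hP hinj hX hPX a (show j < N by omega) V1 V2).trans ?_
    have h1 : (X : ℝ) ^ j ≤ (X : ℝ) ^ J := pow_le_pow_right₀ hXr hj
    have h2 : A1 ^ j ≤ (1 + A1) ^ J := by
      calc A1 ^ j ≤ (1 + A1) ^ j := pow_le_pow_left₀ hA10 (by linarith) j
        _ ≤ (1 + A1) ^ J := pow_le_pow_right₀ (by linarith) hj
    have h3 : (X : ℝ) ^ j * A1 ^ j ≤ (X : ℝ) ^ J * (1 + A1) ^ J :=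
      mul_le_mul h1 h2 (by positivity) (by positivity)
    linarith
  -- Taylor expansions
  have hXc := Xt_cont P a
  have hT1 : ‖(∫ t in V1..V2, Complex.exp (I * (u * Xt P a t : ℝ))) -
      ∑ m ∈ Finset.range J, ((I * u) ^ m / m.factorial) * ((∫ t in V1..V2, Xt P a t ^ m : ℝ) : ℂ)‖ ≤
      |u| ^ J / J.factorial * ∫ t in V1..V2, Xt P a t ^ J := by
    have e1 : ∑ m ∈ Finset.range J, ((I * u) ^ m / m.factorial) *
        ((∫ t in V1..V2, Xt P a t ^ m : ℝ) : ℂ) =
        ∫ t in V1..V2, ∑ m ∈ Finset.range J, (I * ((u * Xt P a t : ℝ) : ℂ)) ^ m / m.factorial := by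
      rw [intervalIntegral.integral_finsetSum]
      · apply Finset.sum_congr rfl
        intro m _
        rw [← intervalIntegral.integral_ofReal, ← intervalIntegral.integral_const_mul]
        apply intervalIntegral.integral_congr
        intro t _
        simp only
        push_cast
        ring
      · intro m _
        apply Continuous.intervalIntegrable
        fun_prop
    rw [e1, ← intervalIntegral.integral_sub]
    · have h1 := intervalIntegral.norm_integral_le_of_norm_le (μ := volume) hV.le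
        (f := fun t => Complex.exp (I * (u * Xt P a t : ℝ)) -
          ∑ m ∈ Finset.range J, (I * ((u * Xt P a t : ℝ) : ℂ)) ^ m / m.factorial)
        (g := fun t => |u| ^ J / J.factorial * Xt P a t ^ J)
        (Filter.Eventually.of_forall fun t _ => ?_) ?_
      · refine h1.trans (le_of_eq ?_)
        rw [intervalIntegral.integral_const_mul]
      · have h2 := Rn_bound J (u * Xt P a t)
        unfold Rn at h2
        refine h2.trans (le_of_eq ?_)
        have h3 : |Xt P a t| ^ J = Xt P a t ^ J := by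
          rw [← abs_pow, abs_of_nonneg (hJe.pow_nonneg _)]
        rw [abs_mul, mul_pow, h3]
        ring
      · apply Continuous.intervalIntegrable
        fun_prop
    · apply Continuous.intervalIntegrable
      fun_prop
    · apply Continuous.intervalIntegrable
      fun_prop
  have hT2 : ‖Ex N (fun ω : ι → Fin N => Complex.exp (I * (u * Xw N a ω : ℝ))) -
      ∑ m ∈ Finset.range J, ((I * u) ^ m / m.factorial) *
        ((Er N (fun ω : ι → Fin N => Xw N a ω ^ m) : ℝ) : ℂ)‖ ≤ |u| ^ J / J.factorial * m := by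
    have e1 : ∑ m ∈ Finset.range J, ((I * u) ^ m / m.factorial) *
        ((Er N (fun ω : ι → Fin N => Xw N a ω ^ m) : ℝ) : ℂ) =
        Ex N (fun ω : ι → Fin N => ∑ m ∈ Finset.range J,
          (I * ((u * Xw N a ω : ℝ) : ℂ)) ^ m / m.factorial) := by
      rw [Ex_sum]
      apply Finset.sum_congr rfl
      intro m _
      rw [← Ex_ofReal, ← Ex_const_mul]
      congr 1
      funext ω
      push_cast
      ring
    rw [e1, ← Ex_sub]
    refine (Ex_norm_le _ _).trans ?_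
    rw [hm, ← Er_const_mul]
    apply Er_mono
    intro ω
    have h2 := Rn_bound J (u * Xw N a ω)
    unfold Rn at h2
    refine h2.trans (le_of_eq ?_)
    have h3 : |Xw N a ω| ^ J = Xw N a ω ^ J := by
      rw [← abs_pow, abs_of_nonneg (hJe.pow_nonneg _)]
    rw [abs_mul, mul_pow, h3]
    ring
  have hT3 : ‖(∑ m ∈ Finset.range J, ((I * u) ^ m / m.factorial) *
      ((∫ t in V1..V2, Xt P a t ^ m : ℝ) : ℂ)) - (D : ℂ) * ∑ m ∈ Finset.range J,
      ((I * u) ^ m / m.factorial) * ((Er N (fun ω : ι → Fin N => Xw N a ω ^ m) : ℝ) : ℂ)‖ ≤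
      Q * (2 * (ρ0 * D)) := by
    rw [Finset.mul_sum, ← Finset.sum_sub_distrib]
    have h1 : ∀ m ∈ Finset.range J, ‖((I * u) ^ m / m.factorial) *
        ((∫ t in V1..V2, Xt P a t ^ m : ℝ) : ℂ) - (D : ℂ) * (((I * u) ^ m / m.factorial) *
        ((Er N (fun ω : ι → Fin N => Xw N a ω ^ m) : ℝ) : ℂ))‖ ≤
        w ^ m / m.factorial * (2 * (ρ0 * D)) := by
      intro m hm'
      rw [Finset.mem_range] at hm'
      have e2 : ((I * u) ^ m / m.factorial) *
        ((∫ t in V1..V2, Xt P a t ^ m : ℝ) : ℂ) - (D : ℂ) * (((I * u) ^ m / m.factorial) *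
        ((Er N (fun ω : ι → Fin N => Xw N a ω ^ m) : ℝ) : ℂ)) =
        ((I * u) ^ m / m.factorial) * (((∫ t in V1..V2, Xt P a t ^ m) -
          D * Er N (fun ω : ι → Fin N => Xw N a ω ^ m) : ℝ) : ℂ) := by
        push_cast
        ring
      rw [e2, norm_mul, Complex.norm_real, Real.norm_eq_abs, norm_div, norm_pow, norm_mul,
        Complex.norm_I, one_mul, Complex.norm_real, Real.norm_eq_abs, Complex.norm_natCast]
      apply mul_le_mul _ (hdiff m (by omega)) (abs_nonneg _) (by positivity)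
      apply div_le_div_of_nonneg_right _ (by positivity)
      exact pow_le_pow_left₀ (abs_nonneg u) (by linarith) m
    refine (norm_sum_le_of_le _ h1).trans ?_
    rw [← Finset.sum_mul]
    apply mul_le_mul_of_nonneg_right _ (by positivity)
    rw [hQ, Finset.sum_range_succ]
    have : 0 ≤ w ^ J / (J.factorial : ℝ) := by positivity
    linarith
  -- the `J`-th time moment
  have hJt : |u| ^ J / J.factorial * ∫ t in V1..V2, Xt P a t ^ J ≤
      ε / 8 * D + Q * (2 * (ρ0 * D)) := by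
    have h1 := (abs_le.1 (hdiff J le_rfl)).2
    rw [← hm] at h1
    have h2 : |u| ^ J / J.factorial ≤ Q := by
      have h3 : w ^ J / (J.factorial : ℝ) ≤ ∑ m ∈ Finset.range (J + 1), w ^ m / (m.factorial : ℝ) :=
        Finset.single_le_sum (f := fun m : ℕ => w ^ m / (m.factorial : ℝ))
          (fun _ _ => by positivity) (Finset.mem_range.2 (by omega))
      have h4 : |u| ^ J / (J.factorial : ℝ) ≤ w ^ J / (J.factorial : ℝ) := by
        apply div_le_div_of_nonneg_right _ (by positivity)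
        exact pow_le_pow_left₀ (abs_nonneg u) (by linarith) J
      linarith
    have h5 : 0 ≤ |u| ^ J / (J.factorial : ℝ) := by positivity
    calc |u| ^ J / J.factorial * ∫ t in V1..V2, Xt P a t ^ J ≤
        |u| ^ J / J.factorial * (D * m + 2 * (ρ0 * D)) := mul_le_mul_of_nonneg_left (by linarith) h5
      _ = (|u| ^ J * m / J.factorial) * D + |u| ^ J / J.factorial * (2 * (ρ0 * D)) := by ring
      _ ≤ _ := by
        apply add_le_add
        · exact mul_le_mul_of_nonneg_right hmJ hD0.le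
        · exact mul_le_mul_of_nonneg_right h2 (by positivity)
  have hQρ : Q * (2 * (ρ0 * D)) ≤ ε / 8 * D := by
    have h1 : ρ0 * (16 * Q) ≤ ε := by rwa [le_div_iff₀ (by positivity)] at hρ3
    have := mul_le_mul_of_nonneg_right h1 hD0.le
    linarith
  have hTJ : |u| ^ J / J.factorial * m ≤ ε / 8 := by
    have : |u| ^ J / J.factorial * m = |u| ^ J * m / J.factorial := by ring
    rw [this]
    exact hmJ
  -- assemble
  obtain ⟨S1, hS1⟩ : ∃ S1 : ℂ, S1 = ∑ m ∈ Finset.range J, ((I * u) ^ m / m.factorial) *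
      ((∫ t in V1..V2, Xt P a t ^ m : ℝ) : ℂ) := ⟨_, rfl⟩
  obtain ⟨S2, hS2⟩ : ∃ S2 : ℂ, S2 = ∑ m ∈ Finset.range J,
      ((I * u) ^ m / m.factorial) * ((Er N (fun ω : ι → Fin N => Xw N a ω ^ m) : ℝ) : ℂ) := ⟨_, rfl⟩
  obtain ⟨C1, hC1⟩ : ∃ C1 : ℂ, C1 = Ex N (fun ω : ι → Fin N =>
    Complex.exp (I * (u * Xw N a ω : ℝ))) := ⟨_, rfl⟩
  obtain ⟨I1, hI1⟩ : ∃ I1 : ℂ, I1 = ∫ t in V1..V2, Complex.exp (I * (u * Xt P a t : ℝ)) := ⟨_, rfl⟩
  obtain ⟨G, hG⟩ : ∃ G : ℂ, G = (Real.exp (-(u ^ 2 * v / 4)) : ℂ) := ⟨_, rfl⟩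
  rw [← hS1, ← hI1] at hT1
  rw [← hS2, ← hC1] at hT2
  rw [← hS1, ← hS2] at hT3
  rw [← hC1, ← hG] at hchar
  rw [← hI1, ← hG]
  have e : I1 - (D : ℂ) * G = (I1 - S1) + (S1 - D * S2) + (-(D : ℂ)) * (C1 - S2) + D * (C1 - G) := by
    ring
  rw [e]
  have hDn : ‖(D : ℂ)‖ = D := by rw [Complex.norm_real, Real.norm_of_nonneg hD0.le]
  have k1 := norm_add_le ((I1 - S1) + (S1 - D * S2) + (-(D : ℂ)) * (C1 - S2)) (D * (C1 - G))
  have k2 := norm_add_le ((I1 - S1) + (S1 - D * S2)) ((-(D : ℂ)) * (C1 - S2))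
  have k3 := norm_add_le (I1 - S1) (S1 - D * S2)
  have k4 : ‖(-(D : ℂ)) * (C1 - S2)‖ ≤ D * (ε / 8) := by
    rw [norm_mul, norm_neg, hDn]
    exact mul_le_mul_of_nonneg_left (hT2.trans hTJ) hD0.le
  have k5 : ‖(D : ℂ) * (C1 - G)‖ ≤ D * (ε / 8) := by
    rw [norm_mul, hDn]
    exact mul_le_mul_of_nonneg_left (hchar.trans hchar') hD0.le
  have hεD : 0 < ε * D := by positivity
  linarith

end Pool.Agent.H666.CF
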