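import Pool.Agent.H666.CF.Cf
import Pool.Agent.H666.ZG.FM

/-! The number of zeros in a window and the short prime sum: the error in mean square. -/

open Complex Filter Topology Set MeasureTheory

namespace Pool.Agent.H666.CF

open SG (phi hh nn dd dl)
open SP LG LG.NoZero

/-- mass of the kernel -/
noncomputable def MM (l : ℝ) : ℝ := Real.sqrt (2 * Real.pi) * GG3 l

/-- counting zeros in a window, with the main term -/
theorem cnt_approx (hRH : RHs) (κ : ℝ) (hκ : 0 < κ) (hκ1 : κ < 1 / 2) :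
    ∃ C c0 T0 : ℝ, 0 < C ∧ 0 < c0 ∧ 10 ≤ T0 ∧ ∀ T : ℝ, T0 ≤ T → ∀ t h : ℝ, 0 ≤ h →
    T + Real.log T ≤ t → t + h ≤ 2 * T - Real.log T → ∀ k : ℕ, 1 ≤ k →
    (k : ℝ) ≤ c0 * Real.log T → 1 ≤ MM (ell κ T k) ∧
    |MM (ell κ T k) * (Rig.cnt T t h - h * Real.log T / (2 * Real.pi)) +
      (∫ s in t..(t + h), ps T s (W3 (ell κ T k))).re| ≤ C * (Mk T k t + Mk T k (t + h) + h) := by
  obtain ⟨C1, T1, hC1, hT1, h1⟩ := EFWm hRH
  obtain ⟨l0, hl0, hl0'⟩ := NoZero.GG3_low
  have hpi := Real.pi_pos
  have hpi3 := Real.pi_gt_three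
  have hκ' : 0 < 1 - κ := by linarith
  have hsq : 0 < Real.sqrt (2 * Real.pi) := Real.sqrt_pos.2 (by positivity)
  have hsq2 : Real.sqrt (2 * Real.pi) * Real.sqrt (2 * Real.pi) = 2 * Real.pi :=
    Real.mul_self_sqrt (by positivity)
  refine ⟨16400 * Real.pi * 16 + 2 * C1 + 1, (1 - κ) / (2 * l0), T1, by positivity,
    by positivity, hT1, ?_⟩
  intro T hT t h hh ht1 ht2 k hk hkc
  have hT10 : 10 ≤ T := hT1.trans hT
  have hT1' : 1 ≤ T := by linarith
  have hL : 0 < Real.log T := Real.log_pos (by linarith)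
  have hk0 : (0 : ℝ) < k := by exact_mod_cast hk
  have hl := MkB.ell_pos hκ1 hT10 hk
  have hlL := MkB.ell_le_log hκ hT10 hk
  have hl3 := MkB.ell_ge hκ1 hT10 hk
  have hl0l : l0 ≤ ell κ T k := by
    unfold ell
    rw [le_div_iff₀ (by positivity)]
    rw [div_mul_eq_mul_div, le_div_iff₀ (by positivity)] at hkc
    linarith
  have hGl := hl0' _ hl0l
  set l := ell κ T k with hld
  have hw := W3_cont l hl
  have hW : ∀ u ∈ Set.Icc 0 (Real.log T), ‖W3 l u‖ ≤ 2 := fun u _ => hw.2 u
  set M : ℝ := Real.sqrt (2 * Real.pi) * GG3 l with hM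
  have hM1 : 1 ≤ M := by
    have : Real.sqrt (2 * Real.pi) * (9 / 20 * Real.sqrt (2 * Real.pi)) ≤ M :=
      mul_le_mul_of_nonneg_left hGl hsq.le
    have e : Real.sqrt (2 * Real.pi) * (9 / 20 * Real.sqrt (2 * Real.pi)) =
        9 / 20 * (2 * Real.pi) := by
      linear_combination (9 / 20 : ℝ) * hsq2
    rw [e] at this
    linarith
  set F := (NoZero.ZZ_finite hT1').toFinset with hF
  -- pointwise explicit formula
  have e1 : ∀ s ∈ Set.Icc t (t + h), |(zs T s (W3 l)).re + (ps T s (W3 l)).re -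
      Real.log T * M / (2 * Real.pi)| ≤ 2 * C1 := by
    intro s hs
    have e1 := h1 T hT s (by linarith [hs.1]) (by linarith [hs.2]) (W3 l) 2 hw.1 hW
    rw [NoZero.gauss_int hl hlL] at e1
    have e2 := (Complex.abs_re_le_norm _).trans e1
    rw [Complex.sub_re, Complex.add_re, ← Complex.ofReal_mul, Complex.ofReal_re] at e2
    have e3 : Real.log T / Real.sqrt (2 * Real.pi) * GG3 l = Real.log T * M / (2 * Real.pi) := by
      rw [hM, div_mul_eq_mul_div, div_eq_div_iff hsq.ne' (by positivity)]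
      linear_combination -(Real.log T * GG3 l) * hsq2
    rw [e3] at e2
    linarith
  -- integrate
  have hzc := Rig.zs_cont hT1' hl hlL
  have hpc : Continuous fun s : ℝ => ps T s (W3 l) := Rig.ps_cont T hT1' (W3 l) 2 hW
  have hprc : Continuous fun s : ℝ => (ps T s (W3 l)).re := Complex.continuous_re.comp hpc
  have e2 : |(∫ s in t..(t + h), (zs T s (W3 l)).re) + (∫ s in t..(t + h), (ps T s (W3 l)).re) -
      h * (Real.log T * M / (2 * Real.pi))| ≤ 2 * C1 * h := by
    have e3 := intervalIntegral.norm_integral_le_of_norm_le_const (a := t) (b := t + h)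
      (C := 2 * C1) (f := fun s => (zs T s (W3 l)).re + (ps T s (W3 l)).re -
      Real.log T * M / (2 * Real.pi)) (by
        intro s hs
        rw [Set.uIoc_of_le (by linarith)] at hs
        exact e1 s ⟨hs.1.le, hs.2⟩)
    rw [add_sub_cancel_left, abs_of_nonneg hh, intervalIntegral.integral_sub,
      intervalIntegral.integral_add, intervalIntegral.integral_const, smul_eq_mul,
      add_sub_cancel_left, Real.norm_eq_abs] at e3
    · exact e3
    · exact hzc.intervalIntegrable _ _
    · exact hprc.intervalIntegrable _ _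
    · exact (hzc.add hprc).intervalIntegrable _ _
    · exact intervalIntegrable_const
  have e4 : ∫ s in t..(t + h), (ps T s (W3 l)).re = (∫ s in t..(t + h), ps T s (W3 l)).re := by
    have := Complex.reCLM.intervalIntegral_comp_comm (hpc.intervalIntegrable (μ := volume) t (t + h))
    simpa using this
  have e5 : |∫ s in t..(t + h), (ps T s (W3 l)).re| ≤
      ‖∫ s in t..(t + h), ps T s (W3 l)‖ := by
    rw [e4]
    exact Complex.abs_re_le_norm _
  -- zero side
  have e6 : |(∫ s in t..(t + h), (zs T s (W3 l)).re) - M * Rig.cnt T t h| ≤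
      16400 * Real.pi * 16 * (Mk T k t + Mk T k (t + h)) := by
    rw [Rig.zs_int hT1' t h hl hlL, Rig.cnt_eq hT1', Finset.mul_sum, ← Finset.sum_sub_distrib,
      MkB.Mk_eq hT1', MkB.Mk_eq hT1', ← Finset.sum_add_distrib, Finset.mul_sum]
    refine (Finset.abs_sum_le_sum_abs _ _).trans (Finset.sum_le_sum fun s _ => ?_)
    have e7 := Rig.kg_window hl h (s.im - t) hh
    have e8 : (mu s : ℝ) * (∫ v in (s.im - t - h)..(s.im - t), Rig.kg l v) -
        M * ((mu s : ℝ) * (if 0 ≤ s.im - t ∧ s.im - t ≤ h then 1 else 0)) =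
        (mu s : ℝ) * ((∫ v in (s.im - t - h)..(s.im - t), Rig.kg l v) -
        M * (if 0 ≤ s.im - t ∧ s.im - t ≤ h then 1 else 0)) := by ring
    rw [e8, abs_mul, abs_of_nonneg (by positivity : (0 : ℝ) ≤ mu s)]
    have hEE : ∀ a : ℝ, Rig.EE l a ≤ 16 * (Real.exp (-a ^ 2 / 2) / (1 + (Real.log T * a / k) ^ 2)) := by
      intro a
      unfold Rig.EE
      rw [mul_div_assoc', div_le_div_iff₀ (by positivity) (by positivity)]
      have e9 : (Real.log T * a / k) ^ 2 ≤ 16 * (l * a) ^ 2 := by
        have e10 : Real.log T / k ≤ 4 * l := by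
          have : Real.log T / (4 * k) = Real.log T / k / 4 := by
            field_simp
          rw [this] at hl3
          linarith
        have e11 : (Real.log T / k) ^ 2 ≤ (4 * l) ^ 2 := pow_le_pow_left₀ (by positivity) e10 2
        have e12 : (Real.log T * a / k) ^ 2 = (Real.log T / k) ^ 2 * a ^ 2 := by ring
        rw [e12]
        have := mul_le_mul_of_nonneg_right e11 (sq_nonneg a)
        calc _ ≤ _ := this
          _ = _ := by ring
      have e13 := (Real.exp_pos (-a ^ 2 / 2)).le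
      have e14 : 1 + (Real.log T * a / k) ^ 2 ≤ 16 * (1 + (l * a) ^ 2) := by linarith
      calc Real.exp (-a ^ 2 / 2) * (1 + (Real.log T * a / k) ^ 2)
          ≤ Real.exp (-a ^ 2 / 2) * (16 * (1 + (l * a) ^ 2)) :=
            mul_le_mul_of_nonneg_left e14 e13
        _ = _ := by ring
    have e9 := hEE (s.im - t)
    have e10 := hEE (s.im - t - h)
    have e11 : s.im - (t + h) = s.im - t - h := by ring
    rw [e11]
    calc (mu s : ℝ) * |(∫ v in (s.im - t - h)..(s.im - t), Rig.kg l v) -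
        M * (if 0 ≤ s.im - t ∧ s.im - t ≤ h then 1 else 0)|
        ≤ (mu s : ℝ) * (16400 * Real.pi * (16 * (Real.exp (-(s.im - t) ^ 2 / 2) /
          (1 + (Real.log T * (s.im - t) / k) ^ 2)) + 16 * (Real.exp (-(s.im - t - h) ^ 2 / 2) /
          (1 + (Real.log T * (s.im - t - h) / k) ^ 2)))) := by
          apply mul_le_mul_of_nonneg_left _ (by positivity)
          refine e7.trans ?_
          apply mul_le_mul_of_nonneg_left _ (by positivity)
          exact add_le_add e9 e10
      _ = _ := by ring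
  -- conclusion
  have hMk1 := MkB.Mk_nonneg hT1' k t
  have hMk2 := MkB.Mk_nonneg hT1' k (t + h)
  refine ⟨hM1, ?_⟩
  have e8 : MM l * (Rig.cnt T t h - h * Real.log T / (2 * Real.pi)) = M * Rig.cnt T t h -
      h * (Real.log T * M / (2 * Real.pi)) := by
    unfold MM
    rw [← hM]
    ring
  rw [e8, ← e4]
  have e7 : |M * Rig.cnt T t h - h * (Real.log T * M / (2 * Real.pi)) +
      ∫ s in t..(t + h), (ps T s (W3 l)).re| ≤
      16400 * Real.pi * 16 * (Mk T k t + Mk T k (t + h)) + 2 * C1 * h := by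
    rw [abs_le] at e2 e6 ⊢
    constructor <;> linarith [e2.1, e2.2, e6.1, e6.2]
  refine e7.trans ?_
  have a1 : 16400 * Real.pi * 16 * (Mk T k t + Mk T k (t + h)) ≤
      (16400 * Real.pi * 16 + 2 * C1 + 1) * (Mk T k t + Mk T k (t + h)) := by
    apply mul_le_mul_of_nonneg_right _ (by linarith)
    linarith
  have a2 : 2 * C1 * h ≤ (16400 * Real.pi * 16 + 2 * C1 + 1) * h := by
    apply mul_le_mul_of_nonneg_right _ hh
    have : 0 < 16400 * Real.pi * 16 := by positivity
    linarith
  calc _ ≤ (16400 * Real.pi * 16 + 2 * C1 + 1) * (Mk T k t + Mk T k (t + h)) +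
        (16400 * Real.pi * 16 + 2 * C1 + 1) * h := by linarith
    _ = _ := by ring

end Pool.Agent.H666.CF
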