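import Pool.Agent.H666.CF.Er

/-! The prime side: the short prime sum, the squares of primes and a bounded remainder. -/

open Complex Filter Topology Set MeasureTheory

namespace Pool.Agent.H666.CF

open SG (phi hh nn dd dl)
open SP LG
open Rig (gg gg_hasSum gg_norm gg_prime PP mem_PP PSum bt_far' bet)

/-- the bound for the coefficients of the powers of `p` -/
noncomputable def bb (h l : ℝ) (p : ℕ) : ℝ :=
  2 * ((if p ∈ PP l then min 1 (h * Real.log p) else 0) +
    h * Real.log p * Real.exp (-(1 / 2) * (Real.log p) ^ 2))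

lemma bb_nonneg {h l : ℝ} (hh : 0 ≤ h) {p : ℕ} (hp : p.Prime) : 0 ≤ bb h l p := by
  have hlp : 0 < Real.log p := Real.log_pos (by exact_mod_cast hp.one_lt)
  have h4 : 0 ≤ min 1 (h * Real.log p) := le_min zero_le_one (by positivity)
  unfold bb
  split_ifs <;> positivity

theorem gg_term (T t h l : ℝ) (hT : 1 ≤ T) (hh : 0 ≤ h) (W : ℝ → ℂ)
    (hW : ∀ u ∈ Set.Icc 0 (Real.log T), ‖W u‖ ≤ 2) (hl : ∀ u : ℝ, l ≤ u → W u = 0)
    (p : ℕ) (hp : p.Prime) (k : ℕ) :
    ‖gg T t h W (p ^ (k + 2))‖ ≤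
      (((p : ℝ) ^ (-(1 / 2) : ℝ)) ^ 2 * bb h l p) * ((p : ℝ) ^ (-(1 / 2) : ℝ)) ^ k := by
  have hL : 0 ≤ Real.log T := Real.log_nonneg hT
  have hp2 : (2 : ℝ) ≤ p := by exact_mod_cast hp.two_le
  have hp0 : (0 : ℝ) < p := by linarith
  have hlp : 0 < Real.log p := Real.log_pos (by linarith)
  set r : ℝ := (p : ℝ) ^ (-(1 / 2) : ℝ) with hr
  have hr0 : 0 < r := Real.rpow_pos_of_pos hp0 _
  have hr2 : r ^ 2 = 1 / p := by
    rw [hr, ← Real.rpow_natCast, ← Real.rpow_mul hp0.le]
    norm_num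
    rw [Real.rpow_neg_one]
  have hr34 : r ≤ 3 / 4 := by
    have h1 : r ^ 2 ≤ (3 / 4) ^ 2 := by
      rw [hr2, div_le_iff₀ hp0]
      nlinarith
    exact le_of_sq_le_sq h1 (by norm_num)
  have hr1 : r < 1 := by linarith
  set mm : ℝ := min 1 (h * Real.log p) with hmm
  have hmm0 : 0 ≤ mm := le_min zero_le_one (by positivity)
  set bb' : ℝ := 2 * ((if p ∈ PP l then mm else 0) +
    h * Real.log p * Real.exp (-(1 / 2) * (Real.log p) ^ 2)) with hbb
  have hbt : ∀ k : ℕ, mm * ‖bt T W ((p ^ (k + 2) : ℕ) : ℝ)‖ ≤ bb' := by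
    intro k
    rw [hbb]
    by_cases hpl : p ∈ PP l
    · rw [if_pos hpl]
      have h1 := bt_le T hT W 2 hW ((p ^ (k + 2) : ℕ) : ℝ)
      have h2 := mul_le_mul_of_nonneg_left h1 hmm0
      have : 0 ≤ h * Real.log p * Real.exp (-(1 / 2) * (Real.log p) ^ 2) := by positivity
      linarith
    · rw [if_neg hpl, zero_add]
      have hlt : l < Real.log p := by
        by_contra h1
        exact hpl (mem_PP.2 ⟨hp, not_lt.1 h1⟩)
      have hlogk : Real.log ((p ^ (k + 2) : ℕ) : ℝ) = (k + 2) * Real.log p := by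
        push_cast
        rw [Real.log_pow]
        push_cast
        ring
      have hge : Real.log p ≤ Real.log ((p ^ (k + 2) : ℕ) : ℝ) - l := by
        rw [hlogk]
        have : 0 ≤ (k : ℝ) * Real.log p := by positivity
        nlinarith
      have h1 := bt_far' T hT W 2 l hW hl ((p ^ (k + 2) : ℕ) : ℝ) (by linarith)
      have h2 : Real.exp (-(Real.log ((p ^ (k + 2) : ℕ) : ℝ) - l) ^ 2 / 2) ≤
          Real.exp (-(1 / 2) * (Real.log p) ^ 2) := by
        apply Real.exp_le_exp.2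
        nlinarith
      have h3 : mm ≤ h * Real.log p := min_le_right _ _
      calc mm * ‖bt T W ((p ^ (k + 2) : ℕ) : ℝ)‖ ≤ (h * Real.log p) *
            (2 * Real.exp (-(1 / 2) * (Real.log p) ^ 2)) := by
            apply mul_le_mul h3 (h1.trans _) (norm_nonneg _) (by positivity)
            exact mul_le_mul_of_nonneg_left h2 (by norm_num)
        _ = _ := by ring
  have hbb0 : 0 ≤ bb' := (mul_nonneg hmm0 (norm_nonneg _)).trans (hbt 0)
  have hterm : ∀ k : ℕ, ‖gg T t h W (p ^ (k + 2))‖ ≤ (r ^ 2 * bb') * r ^ k := by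
    intro k
    have hpos : 2 ≤ p ^ (k + 2) := by
      calc 2 ≤ p := hp.two_le
        _ = p ^ 1 := (pow_one p).symm
        _ ≤ p ^ (k + 2) := Nat.pow_le_pow_right hp.pos (by omega)
    refine (gg_norm T t h hh W _ hpos).trans ?_
    rw [ArithmeticFunction.vonMangoldt_apply_pow (by omega),
      ArithmeticFunction.vonMangoldt_apply_prime hp]
    have h1 : ((p ^ (k + 2) : ℕ) : ℝ) ^ (-(1 / 2) : ℝ) = r ^ (k + 2) := by
      push_cast
      rw [hr, ← Real.rpow_natCast, ← Real.rpow_natCast, ← Real.rpow_mul hp0.le,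
        ← Real.rpow_mul hp0.le]
      ring_nf
    have hlogk : Real.log ((p ^ (k + 2) : ℕ) : ℝ) = (k + 2) * Real.log p := by
      push_cast
      rw [Real.log_pow]
      push_cast
      ring
    rw [h1, hlogk]
    have hk2 : (0 : ℝ) < (k + 2) * Real.log p := by positivity
    have h2 : Real.log p * (min 2 (h * ((k + 2) * Real.log p)) / ((k + 2) * Real.log p)) ≤ mm := by
      rw [mul_div_assoc', div_le_iff₀ hk2, hmm]
      rcases le_total 1 (h * Real.log p) with h3 | h3
      · rw [min_eq_left h3]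
        calc Real.log p * min 2 (h * ((k + 2) * Real.log p)) ≤ Real.log p * 2 :=
              mul_le_mul_of_nonneg_left (min_le_left _ _) hlp.le
          _ ≤ 1 * ((k + 2) * Real.log p) := by
              have : (0 : ℝ) ≤ k * Real.log p := by positivity
              linarith
      · rw [min_eq_right h3]
        calc Real.log p * min 2 (h * ((k + 2) * Real.log p)) ≤
              Real.log p * (h * ((k + 2) * Real.log p)) :=
              mul_le_mul_of_nonneg_left (min_le_right _ _) hlp.le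
          _ = _ := by ring
    calc Real.log p * (r ^ (k + 2) * (min 2 (h * ((k + 2) * Real.log p)) /
          ((k + 2) * Real.log p))) * ‖bt T W ((p ^ (k + 2) : ℕ) : ℝ)‖
        = r ^ (k + 2) * ((Real.log p * (min 2 (h * ((k + 2) * Real.log p)) /
          ((k + 2) * Real.log p))) * ‖bt T W ((p ^ (k + 2) : ℕ) : ℝ)‖) := by ring
      _ ≤ r ^ (k + 2) * (mm * ‖bt T W ((p ^ (k + 2) : ℕ) : ℝ)‖) := by
          apply mul_le_mul_of_nonneg_left _ (by positivity)
          exact mul_le_mul_of_nonneg_right h2 (norm_nonneg _)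
      _ ≤ r ^ (k + 2) * bb' := mul_le_mul_of_nonneg_left (hbt k) (by positivity)
      _ = _ := by ring
  exact hterm k

lemma r_facts {p : ℕ} (hp : p.Prime) : 0 < (p : ℝ) ^ (-(1 / 2) : ℝ) ∧ (p : ℝ) ^ (-(1 / 2) : ℝ) ≤ 3 / 4 ∧
    ((p : ℝ) ^ (-(1 / 2) : ℝ)) ^ 2 = 1 / p := by
  have hp2 : (2 : ℝ) ≤ p := by exact_mod_cast hp.two_le
  have hp0 : (0 : ℝ) < p := by linarith
  set r : ℝ := (p : ℝ) ^ (-(1 / 2) : ℝ) with hr
  have hr0 : 0 < r := Real.rpow_pos_of_pos hp0 _
  have hr2 : r ^ 2 = 1 / p := by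
    rw [hr, ← Real.rpow_natCast, ← Real.rpow_mul hp0.le]
    norm_num
    rw [Real.rpow_neg_one]
  refine ⟨hr0, ?_, hr2⟩
  have h1 : r ^ 2 ≤ (3 / 4) ^ 2 := by
    rw [hr2, div_le_iff₀ hp0]
    nlinarith
  exact le_of_sq_le_sq h1 (by norm_num)

/-- the bound for the remainder -/
noncomputable def B2 (h l : ℝ) (p : ℕ) : ℝ :=
  8 * ((if p ∈ PP l then (p : ℝ) ^ (-(3 / 2) : ℝ) else 0) + h * ppG (1 / 2) p)

theorem gg_rest (T t h l : ℝ) (hT : 1 ≤ T) (hh : 0 ≤ h) (W : ℝ → ℂ)
    (hW : ∀ u ∈ Set.Icc 0 (Real.log T), ‖W u‖ ≤ 2) (hl : ∀ u : ℝ, l ≤ u → W u = 0)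
    (p : ℕ) (hp : p.Prime) :
    ‖(∑' k : ℕ, gg T t h W (p ^ (k + 2))) - (if p ∈ PP l then gg T t h W (p ^ 2) else 0)‖ ≤
      B2 h l p := by
  obtain ⟨hr0, hr34, hr2⟩ := r_facts hp
  have hterm := gg_term T t h l hT hh W hW hl p hp
  have hbb0 := bb_nonneg (l := l) hh hp
  have hp2 : (2 : ℝ) ≤ p := by exact_mod_cast hp.two_le
  have hp0 : (0 : ℝ) < p := by linarith
  have hlp : 0 < Real.log p := Real.log_pos (by linarith)
  have hr32 : ((p : ℝ) ^ (-(1 / 2) : ℝ)) ^ 3 = (p : ℝ) ^ (-(3 / 2) : ℝ) := by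
    rw [← Real.rpow_natCast, ← Real.rpow_mul hp0.le]
    norm_num
  obtain ⟨r, hr⟩ : ∃ r : ℝ, r = (p : ℝ) ^ (-(1 / 2) : ℝ) := ⟨_, rfl⟩
  rw [← hr] at hr0 hr34 hr2 hterm hr32
  have h4 : (1 - r)⁻¹ ≤ 4 := by
    rw [inv_le_comm₀ (by linarith) (by norm_num)]
    linarith
  have hgeo : HasSum (fun k : ℕ => (r ^ 2 * bb h l p) * r ^ k) ((r ^ 2 * bb h l p) * (1 - r)⁻¹) :=
    (hasSum_geometric_of_lt_one hr0.le (by linarith)).mul_left _
  have hsum : Summable fun k : ℕ => gg T t h W (p ^ (k + 2)) :=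
    Summable.of_norm_bounded hgeo.summable hterm
  have hppG : r * (Real.log p * Real.exp (-(1 / 2) * (Real.log p) ^ 2)) = ppG (1 / 2) p := by
    unfold ppG
    rw [hr]
    ring
  have hG0 := ppG_nonneg (1 / 2) p
  unfold B2
  by_cases hpl : p ∈ PP l
  · rw [if_pos hpl, if_pos hpl]
    rw [hsum.tsum_eq_zero_add]
    have e1 : gg T t h W (p ^ (0 + 2)) = gg T t h W (p ^ 2) := by norm_num
    rw [e1, add_sub_cancel_left]
    have hgeo2 : HasSum (fun k : ℕ => (r ^ 3 * bb h l p) * r ^ k) ((r ^ 3 * bb h l p) * (1 - r)⁻¹) :=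
      (hasSum_geometric_of_lt_one hr0.le (by linarith)).mul_left _
    have h1 := tsum_of_norm_bounded (f := fun k : ℕ => gg T t h W (p ^ (k + 1 + 2))) hgeo2 (by
      intro k
      refine (hterm (k + 1)).trans (le_of_eq ?_)
      ring)
    refine h1.trans ?_
    have hb : bb h l p ≤ 2 * (1 + h * (Real.log p * Real.exp (-(1 / 2) * (Real.log p) ^ 2))) := by
      unfold bb
      rw [if_pos hpl]
      have : min 1 (h * Real.log p) ≤ 1 := min_le_left _ _
      linarith
    have hr3 : r ^ 3 ≤ r := by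
      have : r ^ 3 = r * r ^ 2 := by ring
      rw [this]
      have : r ^ 2 ≤ 1 := by nlinarith
      nlinarith
    calc (r ^ 3 * bb h l p) * (1 - r)⁻¹ ≤ (r ^ 3 * bb h l p) * 4 :=
          mul_le_mul_of_nonneg_left h4 (by positivity)
      _ ≤ (r ^ 3 * (2 * (1 + h * (Real.log p * Real.exp (-(1 / 2) * (Real.log p) ^ 2))))) * 4 := by
          apply mul_le_mul_of_nonneg_right _ (by norm_num)
          exact mul_le_mul_of_nonneg_left hb (by positivity)
      _ = 8 * (r ^ 3 + h * (r ^ 3 * (Real.log p * Real.exp (-(1 / 2) * (Real.log p) ^ 2)))) := by ring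
      _ ≤ 8 * (r ^ 3 + h * (r * (Real.log p * Real.exp (-(1 / 2) * (Real.log p) ^ 2)))) := by
          apply mul_le_mul_of_nonneg_left _ (by norm_num)
          apply add_le_add_right
          apply mul_le_mul_of_nonneg_left _ hh
          exact mul_le_mul_of_nonneg_right hr3 (by positivity)
      _ = _ := by rw [hppG, hr32]
  · rw [if_neg hpl, if_neg hpl, sub_zero, zero_add]
    have h1 := tsum_of_norm_bounded hgeo hterm
    refine h1.trans ?_
    have hb : bb h l p = 2 * (h * (Real.log p * Real.exp (-(1 / 2) * (Real.log p) ^ 2))) := by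
      unfold bb
      rw [if_neg hpl]
      ring
    have hr3 : r ^ 2 ≤ r := by nlinarith
    calc (r ^ 2 * bb h l p) * (1 - r)⁻¹ ≤ (r ^ 2 * bb h l p) * 4 :=
          mul_le_mul_of_nonneg_left h4 (by positivity)
      _ = 8 * (h * (r ^ 2 * (Real.log p * Real.exp (-(1 / 2) * (Real.log p) ^ 2)))) := by
          rw [hb]; ring
      _ ≤ 8 * (h * (r * (Real.log p * Real.exp (-(1 / 2) * (Real.log p) ^ 2)))) := by
          apply mul_le_mul_of_nonneg_left _ (by norm_num)
          apply mul_le_mul_of_nonneg_left _ hh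
          exact mul_le_mul_of_nonneg_right hr3 (by positivity)
      _ = _ := by rw [hppG]

/-- the squares of the primes -/
noncomputable def SQ (T h l : ℝ) (W : ℝ → ℂ) (t : ℝ) : ℂ := ∑ p ∈ PP l, gg T t h W (p ^ 2)

/-- the integrated prime side: primes, squares of primes, and a bounded remainder -/
theorem ps_main2 : ∃ C : ℝ, 0 < C ∧ ∀ T : ℝ, 1 ≤ T → ∀ t h l : ℝ, 0 ≤ h → 0 < l →
    ∀ W : ℝ → ℂ, (∀ u ∈ Set.Icc 0 (Real.log T), ‖W u‖ ≤ 2) → (∀ u : ℝ, l ≤ u → W u = 0) →
    ‖(∫ s in t..(t + h), ps T s W) - PSum T h l W t - SQ T h l W t‖ ≤ C * (1 + h) := by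
  have hs32 : Summable fun n : ℕ => (n : ℝ) ^ (-(3 / 2) : ℝ) := by
    rw [Real.summable_nat_rpow]
    norm_num
  have hz32 : 0 ≤ ∑' n : ℕ, (n : ℝ) ^ (-(3 / 2) : ℝ) :=
    tsum_nonneg fun n => Real.rpow_nonneg (Nat.cast_nonneg n) _
  have hG1 : 0 ≤ ∑' n, ppG (1 / 8) n := tsum_nonneg (ppG_nonneg _)
  have hG2 : 0 ≤ ∑' n, ppG (1 / 2) n := tsum_nonneg (ppG_nonneg _)
  refine ⟨2 * (∑' n, ppG (1 / 8) n) + 8 * ((∑' n : ℕ, (n : ℝ) ^ (-(3 / 2) : ℝ)) +
    ∑' n, ppG (1 / 2) n) + 1, by positivity, ?_⟩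
  intro T hT t h l hh hl0 W hW hl
  have hL : 0 ≤ Real.log T := Real.log_nonneg hT
  have hHS := gg_hasSum T t h hT W 2 hW
  have hsum := hHS.summable
  have hsupp : Function.support (gg T t h W) ⊆ {n | IsPrimePow n} := by
    intro n hn
    by_contra hcon
    apply hn
    have h0 : ArithmeticFunction.vonMangoldt n = 0 := by
      rw [ArithmeticFunction.vonMangoldt_eq_zero_iff]
      exact hcon
    unfold Rig.gg ppf
    rw [h0]
    simp
  have hps : (∫ s in t..(t + h), ps T s W) = (∑' p : Nat.Primes, gg T t h W p) +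
      ∑' (p : Nat.Primes) (k : ℕ), gg T t h W (p ^ (k + 2)) := by
    rw [← hHS.tsum_eq]
    exact tsum_eq_tsum_primes_add_tsum_primes_of_support_subset_prime_powers hsum hsupp
  set S : Finset ℕ := PP (2 * l) with hS
  have hQ : PSum T h l W t = ∑ p ∈ S, gg T t h W p := by
    unfold Rig.PSum
    apply Finset.sum_congr rfl
    intro p hp
    rw [gg_prime T t h W p (mem_PP.1 hp).1]
  -- primes
  set g : ℕ → ℂ := Set.indicator {p : ℕ | p.Prime} (gg T t h W) with hg
  have hgs : Summable g := hsum.indicator _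
  have hA1 : (∑' p : Nat.Primes, gg T t h W p) = ∑' n, g n :=
    tsum_subtype {p : ℕ | p.Prime} (gg T t h W)
  have hA2 : ∑ p ∈ S, gg T t h W p = ∑ p ∈ S, g p := by
    apply Finset.sum_congr rfl
    intro p hp
    rw [hg, Set.indicator_of_mem]
    exact (mem_PP.1 hp).1
  have hA3 : ∑ p ∈ S, g p = ∑' n, (if n ∈ S then g n else 0) := by
    rw [tsum_eq_sum (s := S)]
    · apply Finset.sum_congr rfl
      intro p hp
      rw [if_pos hp]
    · intro n hn
      rw [if_neg hn]
  have hs2 : Summable (fun n => if n ∈ S then g n else 0) := by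
    apply summable_of_ne_finset_zero (s := S)
    intro n hn
    rw [if_neg hn]
  have hA : ‖(∑' p : Nat.Primes, gg T t h W p) - ∑ p ∈ S, gg T t h W p‖ ≤
      2 * h * ∑' n, ppG (1 / 8) n := by
    rw [hA1, hA2, hA3, ← hgs.tsum_sub hs2]
    apply tsum_of_norm_bounded ((ppG_summable (1 / 8) (by norm_num)).hasSum.mul_left _)
    intro n
    have hG0 := ppG_nonneg (1 / 8) n
    by_cases hnS : n ∈ S
    · rw [if_pos hnS, sub_self, norm_zero]
      positivity
    · rw [if_neg hnS, sub_zero]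
      by_cases hn : n.Prime
      · rw [hg, Set.indicator_of_mem (show n ∈ {p : ℕ | p.Prime} from hn)]
        have hlogn : 2 * l < Real.log n := by
          by_contra h1
          exact hnS (mem_PP.2 ⟨hn, not_lt.1 h1⟩)
        have hlp : 0 < Real.log n := by linarith
        refine (gg_norm T t h hh W n hn.two_le).trans ?_
        have h1 : min 2 (h * Real.log n) / Real.log n ≤ h := by
          rw [div_le_iff₀ hlp]
          exact min_le_right _ _
        have h2 := bt_far' T hT W 2 l hW hl n (by linarith)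
        have h3 : Real.exp (-(Real.log n - l) ^ 2 / 2) ≤
            Real.exp (-(1 / 8) * (Real.log n) ^ 2) := by
          apply Real.exp_le_exp.2
          nlinarith
        have h4 : ‖bt T W n‖ ≤ 2 * Real.exp (-(1 / 8) * (Real.log n) ^ 2) :=
          h2.trans (mul_le_mul_of_nonneg_left h3 (by norm_num))
        rw [ArithmeticFunction.vonMangoldt_apply_prime hn]
        calc Real.log n * ((n : ℝ) ^ (-(1 / 2) : ℝ) * (min 2 (h * Real.log n) / Real.log n)) *
              ‖bt T W n‖ ≤ Real.log n * ((n : ℝ) ^ (-(1 / 2) : ℝ) * h) *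
              (2 * Real.exp (-(1 / 8) * (Real.log n) ^ 2)) := by
              apply mul_le_mul _ h4 (norm_nonneg _) (by positivity)
              apply mul_le_mul_of_nonneg_left _ hlp.le
              exact mul_le_mul_of_nonneg_left h1 (by positivity)
          _ = _ := by
              unfold ppG
              ring
      · rw [hg, Set.indicator_of_notMem (show n ∉ {p : ℕ | p.Prime} from hn), norm_zero]
        positivity
  -- higher powers
  have hB0 : ∀ n, 0 ≤ B2 h l n := by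
    intro n
    have h1 := ppG_nonneg (1 / 2) n
    have h3 : (0 : ℝ) ≤ (if n ∈ PP l then (n : ℝ) ^ (-(3 / 2) : ℝ) else 0) := by
      split_ifs <;> positivity
    unfold B2
    positivity
  have hsB1 : Summable fun n : ℕ => if n ∈ PP l then (n : ℝ) ^ (-(3 / 2) : ℝ) else 0 := by
    apply summable_of_ne_finset_zero (s := PP l)
    intro n hn
    rw [if_neg hn]
  have hsB : Summable (B2 h l) :=
    (hsB1.add ((ppG_summable (1 / 2) (by norm_num)).mul_left h)).mul_left 8
  have hB1le : ∑' n : ℕ, (if n ∈ PP l then (n : ℝ) ^ (-(3 / 2) : ℝ) else 0) ≤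
      ∑' n : ℕ, (n : ℝ) ^ (-(3 / 2) : ℝ) := by
    apply hsB1.tsum_le_tsum _ hs32
    intro n
    split_ifs
    · exact le_rfl
    · exact Real.rpow_nonneg (Nat.cast_nonneg n) _
  have hBt : ∑' n, B2 h l n = 8 * ((∑' n : ℕ, (if n ∈ PP l then (n : ℝ) ^ (-(3 / 2) : ℝ) else 0)) +
      h * ∑' n, ppG (1 / 2) n) := by
    unfold B2
    rw [tsum_mul_left, hsB1.tsum_add ((ppG_summable (1 / 2) (by norm_num)).mul_left h),
      tsum_mul_left]
  have hD : ∀ p : Nat.Primes, ‖(∑' k : ℕ, gg T t h W ((p : ℕ) ^ (k + 2))) -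
      (if (p : ℕ) ∈ PP l then gg T t h W ((p : ℕ) ^ 2) else 0)‖ ≤ B2 h l p := fun p =>
    gg_rest T t h l hT hh W hW hl p p.2
  have hBsub : Summable (fun p : Nat.Primes => B2 h l p) := hsB.subtype _
  have hsD : Summable (fun p : Nat.Primes => (∑' k : ℕ, gg T t h W ((p : ℕ) ^ (k + 2))) -
      (if (p : ℕ) ∈ PP l then gg T t h W ((p : ℕ) ^ 2) else 0)) :=
    Summable.of_norm_bounded hBsub hD
  -- the squares as a sum over the primes
  set q : ℕ → ℂ := fun n => if n ∈ PP l then gg T t h W (n ^ 2) else 0 with hq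
  have hqs : Summable q := by
    apply summable_of_ne_finset_zero (s := PP l)
    intro n hn
    rw [hq]
    simp only
    rw [if_neg hn]
  have hqt : SQ T h l W t = ∑' p : Nat.Primes, q p := by
    have h1 : ∑' p : Nat.Primes, q p = ∑' n, Set.indicator {p : ℕ | p.Prime} q n :=
      tsum_subtype {p : ℕ | p.Prime} q
    have h2 : Set.indicator {p : ℕ | p.Prime} q = q := by
      funext n
      by_cases hn : n.Prime
      · rw [Set.indicator_of_mem (show n ∈ {p : ℕ | p.Prime} from hn)]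
      · rw [Set.indicator_of_notMem (show n ∉ {p : ℕ | p.Prime} from hn), hq]
        simp only
        rw [if_neg]
        intro h3
        exact hn (mem_PP.1 h3).1
    rw [h1, h2, tsum_eq_sum (s := PP l)]
    · unfold SQ
      apply Finset.sum_congr rfl
      intro n hn
      rw [hq]
      simp only
      rw [if_pos hn]
    · intro n hn
      rw [hq]
      simp only
      rw [if_neg hn]
  have hqsub : Summable (fun p : Nat.Primes => q p) := hqs.subtype _
  have hC : ‖(∑' (p : Nat.Primes) (k : ℕ), gg T t h W (p ^ (k + 2))) - SQ T h l W t‖ ≤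
      ∑' n, B2 h l n := by
    rw [hqt]
    have hs1 : Summable (fun p : Nat.Primes => ∑' k : ℕ, gg T t h W ((p : ℕ) ^ (k + 2))) := by
      have := hsD.add hqsub
      refine this.congr ?_
      intro p
      rw [hq]
      simp
    rw [← hs1.tsum_sub hqsub]
    have h1 : ‖∑' p : Nat.Primes, ((∑' k : ℕ, gg T t h W ((p : ℕ) ^ (k + 2))) - q p)‖ ≤
        ∑' p : Nat.Primes, B2 h l p := by
      apply tsum_of_norm_bounded hBsub.hasSum
      intro p
      exact hD p
    refine h1.trans ?_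
    exact hsB.tsum_subtype_le (B2 h l) {p : ℕ | p.Prime} hB0
  rw [hps, hQ]
  calc ‖(∑' p : Nat.Primes, gg T t h W p) +
      (∑' (p : Nat.Primes) (k : ℕ), gg T t h W (p ^ (k + 2))) - ∑ p ∈ S, gg T t h W p - SQ T h l W t‖
      = ‖((∑' p : Nat.Primes, gg T t h W p) - ∑ p ∈ S, gg T t h W p) +
      ((∑' (p : Nat.Primes) (k : ℕ), gg T t h W (p ^ (k + 2))) - SQ T h l W t)‖ := by
        congr 1
        ring
    _ ≤ 2 * h * (∑' n, ppG (1 / 8) n) + ∑' n, B2 h l n :=
        (norm_add_le _ _).trans (add_le_add hA hC)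
    _ ≤ _ := by
        rw [hBt]
        have a1 : 0 ≤ h * ∑' n : ℕ, (n : ℝ) ^ (-(3 / 2) : ℝ) := by positivity
        nlinarith

end Pool.Agent.H666.CF
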