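import Pool.Agent.H666.CF.Er2

/-! The deviation of the number of zeros in a window from the short prime sum, in mean square. -/

open Complex Filter Topology Set MeasureTheory

namespace Pool.Agent.H666.CF

open SG (ord NZ)
open SP LG
open Rig (gg gg_hasSum gg_norm gg_prime gg_eq PP mem_PP PSum bt_far' bet)
open Pool.Agent.H707.NV (cn hl hl_small cn_meas cn_nonneg cn_log log_small cn_pow_ii)
open Pool.Agent.H666.ZG (cn_le_cnt cnt_le_cn ae_not_ord cnx_ii)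

/-- the pointwise approximation -/
theorem dev_approx (hRH : RHs) : ∃ C c0 T0 : ℝ, 1 ≤ C ∧ 0 < c0 ∧ 10 ≤ T0 ∧ ∀ T : ℝ, T0 ≤ T →
    ∀ t h : ℝ, 0 ≤ h → h ≤ 1 → T + Real.log T ≤ t → t + h ≤ 2 * T - Real.log T → ∀ k : ℕ, 1 ≤ k →
    (k : ℝ) ≤ c0 * Real.log T → 1 ≤ MM (ell (1 / 4) T k) ∧
    |MM (ell (1 / 4) T k) * (Rig.cnt T t h - h * Real.log T / (2 * Real.pi)) +
      (PSum T h (ell (1 / 4) T k) (W3 (ell (1 / 4) T k)) t).re| ≤
      C * k * (1 + ‖Q1 (1 / 4) T k t‖ + ‖Q1 (1 / 4) T k (t + h)‖) +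
        ‖SQ T h (ell (1 / 4) T k) (W3 (ell (1 / 4) T k)) t‖ := by
  obtain ⟨C1, c0, T1, hC1, hc0, hT1, h1⟩ := cnt_approx hRH (1 / 4) (by norm_num) (by norm_num)
  obtain ⟨C2, hC2, h2⟩ := ps_main2
  obtain ⟨C3, T3, hC3, hT3, h3⟩ := Mk_bound hRH (1 / 4) (by norm_num) (by norm_num)
  refine ⟨1 + 2 * C1 * C3 + C1 + 2 * C2, c0, max T1 T3, ?_, hc0, hT1.trans (le_max_left _ _), ?_⟩
  · have : 0 < 2 * C1 * C3 := by positivity
    linarith
  intro T hT t h hh hh1 ht1 ht2 k hk hkc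
  have hTT1 : T1 ≤ T := (le_max_left _ _).trans hT
  have hTT3 : T3 ≤ T := (le_max_right _ _).trans hT
  have hT10 : 10 ≤ T := hT1.trans hTT1
  have hk0 : (1 : ℝ) ≤ k := by exact_mod_cast hk
  have hl := MkB.ell_pos (κ := 1 / 4) (by norm_num) hT10 hk
  obtain ⟨l, hld⟩ : ∃ l, l = ell (1 / 4) T k := ⟨_, rfl⟩
  obtain ⟨e0, e1⟩ := h1 T hTT1 t h hh ht1 ht2 k hk hkc
  rw [← hld] at hl e0 e1 ⊢
  refine ⟨e0, ?_⟩
  have hw := W3_cont l hl
  have e2 := h2 T (by linarith) t h l hh hl (W3 l) (fun u _ => hw.2 u)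
    (fun u hu => by rw [NoZero.W3_eq, NoZero.w3_zero hl hu, Complex.ofReal_zero])
  have hTpos : 0 < Real.log T := Real.log_pos (by linarith)
  have e3 := h3 T hTT3 t ht1 (by linarith) k hk
  have e4 := h3 T hTT3 (t + h) (by linarith) ht2 k hk
  set q1 := ‖Q1 (1 / 4) T k t‖ with hq1
  set q2 := ‖Q1 (1 / 4) T k (t + h)‖ with hq2
  have hq10 : 0 ≤ q1 := norm_nonneg _
  have hq20 : 0 ≤ q2 := norm_nonneg _
  obtain ⟨IP, hIP⟩ : ∃ IP, IP = ∫ s in t..(t + h), ps T s (W3 l) := ⟨_, rfl⟩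
  obtain ⟨PS, hPS⟩ : ∃ PS, PS = PSum T h l (W3 l) t := ⟨_, rfl⟩
  obtain ⟨S, hS⟩ : ∃ S, S = SQ T h l (W3 l) t := ⟨_, rfl⟩
  rw [← hIP] at e1 e2
  rw [← hPS] at e2 ⊢
  rw [← hS] at e2 ⊢
  obtain ⟨Z, hZ⟩ : ∃ Z, Z = MM l * (Rig.cnt T t h - h * Real.log T / (2 * Real.pi)) := ⟨_, rfl⟩
  rw [← hZ] at e1 ⊢
  have e5 : |Z + PS.re| ≤ |Z + IP.re| + ‖IP - PS - S‖ + ‖S‖ := by
    have a1 : Z + PS.re = (Z + IP.re) - (IP - PS - S).re - S.re := by
      simp only [Complex.sub_re]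
      ring
    rw [a1]
    have a2 := abs_sub ((Z + IP.re) - (IP - PS - S).re) S.re
    have a3 := abs_sub (Z + IP.re) (IP - PS - S).re
    have a4 := Complex.abs_re_le_norm (IP - PS - S)
    have a5 := Complex.abs_re_le_norm S
    linarith
  have e6 : C1 * (Mk T k t + Mk T k (t + h) + h) ≤
      (2 * C1 * C3 + C1) * k * (1 + q1 + q2) := by
    have b1 : Mk T k t + Mk T k (t + h) ≤ 2 * C3 * (k * (1 + q1 + q2)) := by
      have : 0 ≤ C3 * k * (q1 + q2) := by positivity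
      nlinarith
    have b2 : h ≤ k * (1 + q1 + q2) := by
      have : 0 ≤ (k : ℝ) * (q1 + q2) := by positivity
      nlinarith
    calc C1 * (Mk T k t + Mk T k (t + h) + h) ≤
        C1 * (2 * C3 * (k * (1 + q1 + q2)) + k * (1 + q1 + q2)) :=
          mul_le_mul_of_nonneg_left (by linarith) hC1.le
      _ = _ := by ring
  have e7 : ‖IP - PS - S‖ ≤ 2 * C2 * k * (1 + q1 + q2) := by
    refine e2.trans ?_
    have b1 : (1 : ℝ) ≤ k * (1 + q1 + q2) := by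
      have : 0 ≤ (k : ℝ) * (q1 + q2) := by positivity
      nlinarith
    calc C2 * (1 + h) ≤ C2 * 2 := mul_le_mul_of_nonneg_left (by linarith) hC2.le
      _ ≤ C2 * 2 * (k * (1 + q1 + q2)) := le_mul_of_one_le_right (by positivity) b1
      _ = _ := by ring
  have e8 : 0 ≤ (k : ℝ) * (1 + q1 + q2) := by positivity
  calc |Z + PS.re| ≤ |Z + IP.re| + ‖IP - PS - S‖ + ‖S‖ := e5
    _ ≤ (2 * C1 * C3 + C1) * k * (1 + q1 + q2) + 2 * C2 * k * (1 + q1 + q2) + ‖S‖ := by linarith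
    _ ≤ (1 + 2 * C1 * C3 + C1 + 2 * C2) * k * (1 + q1 + q2) + ‖S‖ := by linarith

/-! ### The squares of the primes -/

lemma gg_shift (T t h : ℝ) (W : ℝ → ℂ) (p : ℕ) (hp : p.Prime) :
    gg T t h W (p ^ 2) = gg T 0 h W (p ^ 2) * Complex.exp ((-(2 * t * Real.log p) : ℝ) * I) := by
  have hn : 2 ≤ p ^ 2 := by
    have := hp.two_le
    nlinarith
  rw [gg_eq T t h W _ hn, gg_eq T 0 h W _ hn]
  have hp0 : ((p ^ 2 : ℕ) : ℂ) ≠ 0 := by exact_mod_cast (by omega : p ^ 2 ≠ 0)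
  have e1 : ((p ^ 2 : ℕ) : ℂ) ^ (-(I * ((0 : ℝ) : ℂ))) = 1 := by simp
  have e2 : ((p ^ 2 : ℕ) : ℂ) ^ (-(I * (t : ℂ))) =
      Complex.exp ((-(2 * t * Real.log p) : ℝ) * I) := by
    rw [Complex.cpow_def_of_ne_zero hp0, ← Complex.natCast_log]
    congr 1
    push_cast
    rw [Real.log_pow]
    push_cast
    ring
  rw [e1, e2]
  ring

lemma gg0_norm (T h : ℝ) (hT : 1 ≤ T) (hh : 0 ≤ h) (W : ℝ → ℂ)
    (hW : ∀ u ∈ Set.Icc 0 (Real.log T), ‖W u‖ ≤ 2) (p : ℕ) (hp : p.Prime) :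
    ‖gg T 0 h W (p ^ 2)‖ ≤ 2 / p := by
  have hn : 2 ≤ p ^ 2 := by
    have := hp.two_le
    nlinarith
  have hp0 : (0 : ℝ) < p := by exact_mod_cast hp.pos
  have hlp : 0 < Real.log p := Real.log_pos (by exact_mod_cast hp.one_lt)
  refine (gg_norm T 0 h hh W _ hn).trans ?_
  rw [ArithmeticFunction.vonMangoldt_apply_pow (by norm_num),
    ArithmeticFunction.vonMangoldt_apply_prime hp]
  have h1 : ((p ^ 2 : ℕ) : ℝ) ^ (-(1 / 2) : ℝ) = 1 / p := by
    push_cast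
    rw [← Real.rpow_natCast, ← Real.rpow_mul hp0.le]
    norm_num
    rw [Real.rpow_neg_one]
  have h2 : Real.log ((p ^ 2 : ℕ) : ℝ) = 2 * Real.log p := by
    push_cast
    rw [Real.log_pow]
    push_cast
    ring
  rw [h1, h2]
  have h3 := bt_le T hT W 2 hW ((p ^ 2 : ℕ) : ℝ)
  have h4 : min 2 (h * (2 * Real.log p)) / (2 * Real.log p) ≤ 1 / Real.log p := by
    rw [div_le_div_iff₀ (by positivity) hlp]
    have : min 2 (h * (2 * Real.log p)) ≤ 2 := min_le_left _ _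
    nlinarith
  have h5 : 0 ≤ min 2 (h * (2 * Real.log p)) / (2 * Real.log p) :=
    div_nonneg (le_min (by norm_num) (by positivity)) (by positivity)
  calc Real.log p * (1 / p * (min 2 (h * (2 * Real.log p)) / (2 * Real.log p))) *
        ‖bt T W ((p ^ 2 : ℕ) : ℝ)‖ ≤ Real.log p * (1 / p * (1 / Real.log p)) * 2 := by
        apply mul_le_mul _ h3 (norm_nonneg _) (by positivity)
        apply mul_le_mul_of_nonneg_left _ hlp.le
        exact mul_le_mul_of_nonneg_left h4 (by positivity)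
    _ = 2 / p := by field_simp

/-- mean square of the squares of the primes -/
theorem SQ_ms : ∃ C : ℝ, 1 ≤ C ∧ ∀ T h l : ℝ, 1 ≤ T → 0 ≤ h → 0 ≤ l → ∀ W : ℝ → ℂ,
    (∀ u ∈ Set.Icc 0 (Real.log T), ‖W u‖ ≤ 2) → ∀ V1 V2 : ℝ, V1 ≤ V2 →
    ∫ t in V1..V2, ‖SQ T h l W t‖ ^ 2 ≤ C * (V2 - V1) + 8 * Real.exp l ^ 4 := by
  have hz2 : Summable fun n : ℕ => 1 / (n : ℝ) ^ 2 := Real.summable_one_div_nat_pow.2 (by norm_num)
  set Z : ℝ := ∑' n : ℕ, 1 / (n : ℝ) ^ 2 with hZ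
  have hZ0 : 0 ≤ Z := tsum_nonneg fun n => by positivity
  refine ⟨8 * Real.exp (2 * Z), by
    have : 1 ≤ Real.exp (2 * Z) := Real.one_le_exp (by positivity)
    linarith, ?_⟩
  intro T h l hT hh hl W hW V1 V2 hV
  classical
  obtain ⟨c, hc⟩ : ∃ c : {p // p ∈ PP l} → ℂ, c = fun p : {p // p ∈ PP l} =>
    gg T 0 h W ((p : ℕ) ^ 2) := ⟨_, rfl⟩
  obtain ⟨P, hP⟩ : ∃ P : {p // p ∈ PP l} → ℕ, P = fun p : {p // p ∈ PP l} =>
    (p : ℕ) := ⟨_, rfl⟩
  have hPp : ∀ p, (P p).Prime := by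
    intro p
    rw [hP]
    exact (mem_PP.1 p.2).1
  have hinj : Function.Injective P := by
    rw [hP]
    exact Subtype.val_injective
  set X : ℕ := ⌊Real.exp l⌋₊ with hX
  have hX1 : 1 ≤ X := by
    rw [hX, Nat.one_le_floor_iff]
    exact Real.one_le_exp hl
  have hXe : (X : ℝ) ≤ Real.exp l := Nat.floor_le (Real.exp_pos _).le
  have hPX : ∀ p, P p ≤ X := by
    intro p
    rw [hP, hX]
    apply Nat.le_floor
    have := (mem_PP.1 p.2).2
    have h0 : (0 : ℝ) < (p : ℕ) := by exact_mod_cast (mem_PP.1 p.2).1.pos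
    exact (Real.log_le_iff_le_exp h0).1 this
  have hcn : ∀ p, ‖c p‖ ≤ 2 / (P p : ℝ) := by
    intro p
    rw [hc, hP]
    exact gg0_norm T h hT hh W hW p (mem_PP.1 p.2).1
  have hc1 : ∀ p, ‖c p‖ ≤ 1 := by
    intro p
    refine (hcn p).trans ?_
    have : (2 : ℝ) ≤ P p := by exact_mod_cast (hPp p).two_le
    rw [div_le_one (by linarith)]
    exact this
  have hsum2 : ∑ p, ‖c p‖ ^ 2 ≤ 4 * Z := by
    calc ∑ p, ‖c p‖ ^ 2 ≤ ∑ p, 4 * (1 / (P p : ℝ) ^ 2) := by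
          apply Finset.sum_le_sum
          intro p _
          have := pow_le_pow_left₀ (norm_nonneg _) (hcn p) 2
          refine this.trans (le_of_eq ?_)
          ring
      _ = 4 * ∑ p, 1 / (P p : ℝ) ^ 2 := by rw [Finset.mul_sum]
      _ = 4 * ∑ p ∈ PP l, 1 / (p : ℝ) ^ 2 := by
          congr 1
          rw [hP]
          exact Finset.sum_coe_sort (PP l) (fun p : ℕ => 1 / (p : ℝ) ^ 2)
      _ ≤ 4 * Z := by
          apply mul_le_mul_of_nonneg_left _ (by norm_num)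
          exact hz2.sum_le_tsum _ (fun n _ => by positivity)
  have hsum1 : ∑ p, ‖c p‖ ≤ X := by
    calc ∑ p, ‖c p‖ ≤ ∑ _p : {p // p ∈ PP l}, (1 : ℝ) := Finset.sum_le_sum fun p _ => hc1 p
      _ = (PP l).card := by simp
      _ ≤ X := by
          unfold Rig.PP
          have : ((Finset.Icc 1 ⌊Real.exp l⌋₊).filter Nat.Prime).card ≤ X := by
            refine (Finset.card_filter_le _ _).trans ?_
            rw [Nat.card_Icc]
            omega
          exact_mod_cast this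
  -- real and imaginary parts
  have hSQ : ∀ t : ℝ, SQ T h l W t = ∑ p, c p * et P (2 * t) p := by
    intro t
    unfold SQ et
    rw [hc, hP, ← Finset.sum_coe_sort (PP l)]
    apply Finset.sum_congr rfl
    intro p _
    exact gg_shift T t h W p (mem_PP.1 p.2).1
  have hnorm : ∀ t : ℝ, ‖SQ T h l W t‖ ^ 2 =
      Xt P c (2 * t) ^ 2 + Xt P (fun p => -I * c p) (2 * t) ^ 2 := by
    intro t
    rw [← Complex.normSq_eq_norm_sq, Complex.normSq_apply, hSQ]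
    unfold Xt
    rw [← Complex.re_sum, ← Complex.re_sum]
    have : (∑ p, -I * c p * et P (2 * t) p).re = (∑ p, c p * et P (2 * t) p).im := by
      have e : ∑ p, -I * c p * et P (2 * t) p = -I * ∑ p, c p * et P (2 * t) p := by
        rw [Finset.mul_sum]
        apply Finset.sum_congr rfl
        intro p _
        ring
      rw [e]
      simp
    rw [this]
    ring
  have hpart : ∀ a : {p // p ∈ PP l} → ℂ, (∀ p, ‖a p‖ = ‖c p‖) →
      ∫ t in V1..V2, Xt P a (2 * t) ^ 2 ≤ 4 * Real.exp (2 * Z) * (V2 - V1) + Real.exp l ^ 4 := by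
    intro a ha
    have h1 := moment hPp hinj hX1 hPX a (j := 2) (N := 3) (by norm_num) (2 * V1) (2 * V2)
    have h2 := Er_pow (N := 3) (by norm_num) a (s := 1) (ρ := 1) (fun p => by rw [ha]; exact hc1 p)
      (by norm_num) (J := 2) (by decide)
    have h3 : ∫ t in V1..V2, Xt P a (2 * t) ^ 2 = 2⁻¹ * ∫ t in (2 * V1)..(2 * V2), Xt P a t ^ 2 := by
      rw [intervalIntegral.integral_comp_mul_left (fun t => Xt P a t ^ 2) (by norm_num : (2 : ℝ) ≠ 0)]
      rfl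
    rw [h3]
    have h4 := (abs_le.1 h1).2
    simp only [one_mul, one_pow] at h2
    have h5 : ∑ p, ‖a p‖ ^ 2 ≤ 4 * Z := by
      simp_rw [ha]
      exact hsum2
    have h6 : Real.exp ((∑ p, ‖a p‖ ^ 2) / 2) ≤ Real.exp (2 * Z) := Real.exp_le_exp.2 (by linarith)
    have h7 : Er 3 (fun ω : {p // p ∈ PP l} → Fin 3 => Xw 3 a ω ^ 2) ≤ 4 * Real.exp (2 * Z) := by
      refine h2.trans ?_
      have h20 : ((Nat.factorial 2 : ℕ) : ℝ) = 2 := by norm_num [Nat.factorial]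
      rw [h20]
      linarith
    have h8 : (∑ p, ‖a p‖) ^ 2 ≤ (X : ℝ) ^ 2 := by
      simp_rw [ha]
      exact pow_le_pow_left₀ (Finset.sum_nonneg fun _ _ => norm_nonneg _) hsum1 2
    have h9 : (X : ℝ) ^ 4 ≤ Real.exp l ^ 4 := pow_le_pow_left₀ (Nat.cast_nonneg X) hXe 4
    have h10 : 2 * (X : ℝ) ^ 2 * (∑ p, ‖a p‖) ^ 2 ≤ 2 * Real.exp l ^ 4 := by
      calc 2 * (X : ℝ) ^ 2 * (∑ p, ‖a p‖) ^ 2 ≤ 2 * (X : ℝ) ^ 2 * (X : ℝ) ^ 2 :=
            mul_le_mul_of_nonneg_left h8 (by positivity)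
        _ = 2 * (X : ℝ) ^ 4 := by ring
        _ ≤ _ := by linarith
    have h11 : (2 * V2 - 2 * V1) * Er 3 (fun ω : {p // p ∈ PP l} → Fin 3 => Xw 3 a ω ^ 2) ≤
        (2 * V2 - 2 * V1) * (4 * Real.exp (2 * Z)) := mul_le_mul_of_nonneg_left h7 (by linarith)
    linarith
  simp_rw [hnorm]
  rw [intervalIntegral.integral_add]
  · have k1 := hpart c (fun p => rfl)
    have k2 := hpart (fun p => -I * c p) (fun p => by simp)
    have k3 : 0 ≤ Real.exp l ^ 4 := by positivity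
    linarith
  · apply Continuous.intervalIntegrable
    have := Xt_cont P c
    fun_prop
  · apply Continuous.intervalIntegrable
    have := Xt_cont P (fun p => -I * c p)
    fun_prop

lemma SQ_cont (T h l : ℝ) (W : ℝ → ℂ) : Continuous fun t : ℝ => SQ T h l W t := by
  have : (fun t : ℝ => SQ T h l W t) = fun t : ℝ => ∑ p ∈ PP l,
      gg T 0 h W (p ^ 2) * Complex.exp ((-(2 * t * Real.log p) : ℝ) * I) := by
    funext t
    unfold SQ
    apply Finset.sum_congr rfl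
    intro p hp
    exact gg_shift T t h W p (mem_PP.1 hp).1
  rw [this]
  apply continuous_finsetSum
  intro p _
  fun_prop

end Pool.Agent.H666.CF
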