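import Pool.Agent.H666.CF.Er3

/-! The mean square of the error. -/

open Complex Filter Topology Set MeasureTheory

namespace Pool.Agent.H666.CF

open SG (ord NZ)
open SP LG
open Rig (gg gg_hasSum gg_norm gg_prime gg_eq PP mem_PP PSum bt_far' bet)
open Pool.Agent.H707.NV (cn hl hl_small cn_meas cn_nonneg cn_log log_small cn_pow_ii)
open Pool.Agent.H666.ZG (cn_le_cnt cnt_le_cn ae_not_ord cnx_ii)

/-- the error -/
noncomputable def EE (k : ℕ) (x V t : ℝ) : ℝ :=
  MM (ell (1 / 4) V k) * (cn (hl x V) t - x) +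
    (PSum V (hl x V) (ell (1 / 4) V k) (W3 (ell (1 / 4) V k)) t).re

lemma sq_le_one_add {Q : ℝ} (hQ : 0 ≤ Q) {k : ℕ} (hk : 1 ≤ k) : Q ^ 2 ≤ 1 + Q ^ (2 * k) := by
  have h0 : 0 ≤ Q ^ (2 * k) := by positivity
  rcases le_total Q 1 with h | h
  · have : Q ^ 2 ≤ 1 := pow_le_one₀ hQ h
    linarith
  · have : Q ^ 2 ≤ Q ^ (2 * k) := pow_le_pow_right₀ h (by omega)
    linarith

lemma EE_meas (k : ℕ) (x V : ℝ) : Measurable (EE k x V) := by
  unfold EE
  have h1 := cn_meas (hl x V)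
  have h2 := (Rig.PSum_cont V (hl x V) (ell (1 / 4) V k) (W3 (ell (1 / 4) V k))).measurable
  exact ((h1.sub_const x).const_mul _).add (Complex.measurable_re.comp h2)

/-- **the mean square of the error** -/
theorem err_ms (hRH : RiemannHypothesis) {k : ℕ} (hk : 2 ≤ k) : ∃ C : ℝ, 1 ≤ C ∧ ∀ x : ℝ, 0 < x →
    ∀ᶠ V : ℝ in atTop, 1 ≤ MM (ell (1 / 4) V k) ∧
      IntervalIntegrable (fun t => EE k x V t ^ 2) volume (V + Real.log V) (2 * V - Real.log V - 1) ∧
      ∫ t in (V + Real.log V)..(2 * V - Real.log V - 1), EE k x V t ^ 2 ≤ C * V := by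
  have hRHs := Pool.Agent.H707.SM.rhs_of hRH
  obtain ⟨C, c0, Td, hC, hc0, hTd, hdev⟩ := dev_approx hRHs
  obtain ⟨CQ, TQ, hCQ, hTQ, hQ⟩ := CTAux.leb_mom (1 / 4) (by norm_num) (by norm_num)
  obtain ⟨CS, hCS, hSQ⟩ := SQ_ms
  have hk1 : 1 ≤ k := by omega
  have hk0 : (0 : ℝ) < k := by exact_mod_cast (by omega : 0 < k)
  have hk2r : (2 : ℝ) ≤ k := by exact_mod_cast hk
  set A : ℝ := (C * k) ^ 2 with hA
  have hA0 : 0 ≤ A := by positivity
  set K : ℝ := 4 * (3 * A + A * (12 * (CQ / k) ^ k) + CS + 8) + 1 with hK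
  have hK1 : 1 ≤ K := by
    have : 0 ≤ 4 * (3 * A + A * (12 * (CQ / k) ^ k) + CS + 8) := by positivity
    linarith
  refine ⟨K, hK1, fun x hx => ?_⟩
  have hlogbig : ∀ᶠ V : ℝ in atTop, k / c0 ≤ Real.log V :=
    Real.tendsto_log_atTop.eventually_ge_atTop _
  have hlog1 : ∀ᶠ V : ℝ in atTop, 10 ≤ Real.log V :=
    Real.tendsto_log_atTop.eventually_ge_atTop _
  have hNZ1 : ∀ᶠ V : ℝ in atTop, ord 1 ≤ V := eventually_ge_atTop _
  have hVlog : ∀ᶠ V : ℝ in atTop, 4 * Real.log V + 2 ≤ V := by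
    have h1 := Real.isLittleO_log_id_atTop.bound (c := 1 / 8) (by norm_num)
    filter_upwards [h1, eventually_ge_atTop 4] with V h2 h3
    simp only [id] at h2
    rw [Real.norm_of_nonneg (Real.log_nonneg (by linarith)),
      Real.norm_of_nonneg (by linarith : (0 : ℝ) ≤ V)] at h2
    linarith
  filter_upwards [hlogbig, hlog1, hNZ1, hVlog, hl_small x hx, eventually_ge_atTop Td,
    eventually_ge_atTop TQ] with V a1 a2 a4 a5 a6 a7 a8
  have hV10 : 10 ≤ V := hTd.trans a7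
  have hV0 : 0 < V := by linarith
  obtain ⟨hh0, hh1⟩ := a6
  obtain ⟨h, hhd⟩ : ∃ h, h = hl x V := ⟨_, rfl⟩
  obtain ⟨l, hld⟩ : ∃ l, l = ell (1 / 4) V k := ⟨_, rfl⟩
  obtain ⟨L, hLd⟩ : ∃ L, L = Real.log V := ⟨_, rfl⟩
  have hEE : EE k x V = fun t => MM l * (cn h t - x) + (PSum V h l (W3 l) t).re := by
    funext t
    unfold EE
    rw [← hhd, ← hld]
  rw [hEE]
  rw [← hhd] at hh0 hh1
  rw [← hLd] at a1 a2 a5 ⊢
  have hpi := Real.pi_pos
  have hhL : h * L / (2 * Real.pi) = x := by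
    rw [hhd, hLd]
    unfold Pool.Agent.H707.NV.hl
    have : Real.log V ≠ 0 := by rw [← hLd]; linarith
    field_simp
  have hl0 : 0 < l := by rw [hld]; exact MkB.ell_pos (κ := 1 / 4) (by norm_num) (by linarith) hk1
  have hw3 := W3_cont _ hl0
  have hkL : (k : ℝ) ≤ c0 * L := by
    rw [div_le_iff₀ hc0] at a1
    linarith
  have hmid0 : V + L ≤ 2 * V - L - 1 := by linarith
  -- exponent
  have he4 : Real.exp l ^ 4 ≤ V := by
    rw [← Real.exp_nat_mul]
    have h1 : ((4 : ℕ) : ℝ) * l ≤ Real.log V := by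
      rw [hld, ← hLd]
      unfold ell
      rw [← hLd]
      have h2 : ((4 : ℕ) : ℝ) * ((1 - 1 / 4) * L / (2 * k)) = 3 / 2 * L / k := by
        push_cast
        field_simp
        ring
      rw [h2, div_le_iff₀ hk0]
      nlinarith
    calc Real.exp (((4 : ℕ) : ℝ) * l) ≤ Real.exp (Real.log V) := Real.exp_le_exp.2 h1
      _ = V := Real.exp_log hV0
  -- functions
  obtain ⟨Q, hQd⟩ : ∃ Q : ℝ → ℝ, Q = fun t => ‖Q1 (1 / 4) V k t‖ := ⟨_, rfl⟩
  have hQc : Continuous Q := by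
    rw [hQd]
    exact (CTAux.Q1_cont (1 / 4) V k).norm
  have hQ0 : ∀ t, 0 ≤ Q t := fun t => by rw [hQd]; exact norm_nonneg _
  obtain ⟨S, hSd⟩ : ∃ S : ℝ → ℝ, S = fun t => ‖SQ V h l (W3 l) t‖ := ⟨_, rfl⟩
  have hSc : Continuous S := by
    rw [hSd]
    exact (SQ_cont V h l (W3 l)).norm
  have hS0 : ∀ t, 0 ≤ S t := fun t => by rw [hSd]; exact norm_nonneg _
  have mQ : ∀ V1 V2 : ℝ, V ≤ V1 → V1 ≤ V2 → V2 ≤ 2 * V →
      ∫ t in V1..V2, Q t ^ (2 * k) ≤ 6 * V * (CQ / k) ^ k := by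
    intro V1 V2 b1 b2 b3
    have := hQ V a8 k hk1 V1 V2 b1 b2 b3
    rw [hQd]
    exact this
  have mS : ∫ t in (V + L)..(2 * V - L - 1), S t ^ 2 ≤ (CS + 8) * V := by
    have := hSQ V h l (by linarith) hh0 hl0.le (W3 l) (fun u _ => hw3.2 u) (V + L) (2 * V - L - 1)
      hmid0
    rw [hSd]
    refine this.trans ?_
    have h1 : CS * (2 * V - L - 1 - (V + L)) ≤ CS * V :=
      mul_le_mul_of_nonneg_left (by linarith) (by linarith)
    linarith
  -- pointwise
  have hM : 1 ≤ MM l := by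
    have := (hdev V a7 (V + L) h hh0 hh1 (by rw [hLd]) (by rw [← hLd]; linarith) k hk1
      (by rw [← hLd]; exact hkL)).1
    rwa [← hld] at this
  have hpt : ∀ᵐ t, t ∈ Icc (V + L) (2 * V - L - 1) →
      (MM l * (cn h t - x) + (PSum V h l (W3 l) t).re) ^ 2 ≤
      4 * (3 * A + A * Q t ^ (2 * k) + A * Q (t + h) ^ (2 * k) + S t ^ 2) := by
    filter_upwards [ae_not_ord] with t hne ht
    have b1 : V + L ≤ t := ht.1
    have b2 : t + h ≤ 2 * V - L := by linarith [ht.2]
    have hcn : cn h t = Rig.cnt V t h := by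
      apply le_antisymm
      · exact cn_le_cnt (by linarith) hh0 (by linarith) (by linarith)
      · apply cnt_le_cn (by linarith) hh0 _ (hne _)
        exact (SG.ord_le_iff le_rfl _).1 (by linarith)
    have hd := (hdev V a7 t h hh0 hh1 (by rw [← hLd]; exact b1) (by rw [← hLd]; exact b2) k hk1
      (by rw [← hLd]; exact hkL)).2
    rw [← hld, ← hLd, hhL, ← hcn] at hd
    have e1 : C * k * (1 + ‖Q1 (1 / 4) V k t‖ + ‖Q1 (1 / 4) V k (t + h)‖) +
        ‖SQ V h l (W3 l) t‖ = C * k + C * k * Q t + C * k * Q (t + h) + S t := by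
      rw [hQd, hSd]
      ring
    rw [e1] at hd
    rw [← sq_abs]
    have h4 : ∀ a b c d : ℝ, (a + b + c + d) ^ 2 ≤ 4 * (a ^ 2 + b ^ 2 + c ^ 2 + d ^ 2) := by
      intro a b c d
      nlinarith [sq_nonneg (a - b), sq_nonneg (a - c), sq_nonneg (a - d), sq_nonneg (b - c),
        sq_nonneg (b - d), sq_nonneg (c - d)]
    have h5 := sq_le_one_add (hQ0 t) hk1
    have h6 := sq_le_one_add (hQ0 (t + h)) hk1
    have h7 := mul_le_mul_of_nonneg_left h5 hA0
    have h8 := mul_le_mul_of_nonneg_left h6 hA0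
    calc |MM l * (cn h t - x) + (PSum V h l (W3 l) t).re| ^ 2 ≤
        (C * k + C * k * Q t + C * k * Q (t + h) + S t) ^ 2 :=
          pow_le_pow_left₀ (abs_nonneg _) hd 2
      _ ≤ 4 * ((C * k) ^ 2 + (C * k * Q t) ^ 2 + (C * k * Q (t + h)) ^ 2 + S t ^ 2) := h4 _ _ _ _
      _ = 4 * (A + A * Q t ^ 2 + A * Q (t + h) ^ 2 + S t ^ 2) := by rw [hA]; ring
      _ ≤ _ := by linarith
  have cQ : Continuous fun t => Q t ^ (2 * k) := hQc.pow _
  have cQ' : Continuous fun t => Q (t + h) ^ (2 * k) := (hQc.comp (by fun_prop)).pow _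
  have cS : Continuous fun t => S t ^ 2 := hSc.pow 2
  have hmeas : Measurable fun t => (MM l * (cn h t - x) + (PSum V h l (W3 l) t).re) ^ 2 := by
    have h1 := cn_meas h
    have h2 := (Rig.PSum_cont V h l (W3 l)).measurable
    exact (((h1.sub_const x).const_mul _).add (Complex.measurable_re.comp h2)).pow_const 2
  have hgi : IntervalIntegrable (fun t => 4 * (3 * A + A * Q t ^ (2 * k) +
      A * Q (t + h) ^ (2 * k) + S t ^ 2)) volume (V + L) (2 * V - L - 1) := by
    apply Continuous.intervalIntegrable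
    fun_prop
  have hfi : IntervalIntegrable (fun t => (MM l * (cn h t - x) + (PSum V h l (W3 l) t).re) ^ 2)
      volume (V + L) (2 * V - L - 1) := by
    rw [intervalIntegrable_iff_integrableOn_Icc_of_le hmid0] at hgi ⊢
    refine Integrable.mono' hgi hmeas.aestronglyMeasurable ?_
    rw [ae_restrict_iff' measurableSet_Icc]
    filter_upwards [hpt] with t ht hti
    rw [Real.norm_of_nonneg (sq_nonneg _)]
    exact ht hti
  refine ⟨by rw [← hld]; exact hM, hfi, ?_⟩
  have h1 : ∫ t in (V + L)..(2 * V - L - 1),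
      (MM l * (cn h t - x) + (PSum V h l (W3 l) t).re) ^ 2 ≤
      ∫ t in (V + L)..(2 * V - L - 1), 4 * (3 * A + A * Q t ^ (2 * k) +
      A * Q (t + h) ^ (2 * k) + S t ^ 2) := by
    apply intervalIntegral.integral_mono_ae_restrict hmid0 hfi hgi
    rw [EventuallyLE, ae_restrict_iff' measurableSet_Icc]
    exact hpt
  refine h1.trans ?_
  have k2 : IntervalIntegrable (fun t => A * Q t ^ (2 * k)) volume (V + L) (2 * V - L - 1) :=
    (continuous_const.mul cQ).intervalIntegrable _ _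
  have k3 : IntervalIntegrable (fun t => A * Q (t + h) ^ (2 * k)) volume (V + L)
    (2 * V - L - 1) := (continuous_const.mul cQ').intervalIntegrable _ _
  have k4 : IntervalIntegrable (fun t => S t ^ 2) volume (V + L) (2 * V - L - 1) :=
    cS.intervalIntegrable _ _
  have k1 : IntervalIntegrable (fun _ : ℝ => 3 * A) volume (V + L) (2 * V - L - 1) :=
    continuous_const.intervalIntegrable _ _
  rw [intervalIntegral.integral_const_mul, intervalIntegral.integral_add ((k1.add k2).add k3) k4,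
    intervalIntegral.integral_add (k1.add k2) k3, intervalIntegral.integral_add k1 k2]
  simp only [intervalIntegral.integral_const_mul, intervalIntegral.integral_const, smul_eq_mul]
  have m1 := mQ (V + L) (2 * V - L - 1) (by linarith) hmid0 (by linarith)
  have m2 : ∫ t in (V + L)..(2 * V - L - 1), Q (t + h) ^ (2 * k) ≤ 6 * V * (CQ / k) ^ k := by
    rw [intervalIntegral.integral_comp_add_right (fun t => Q t ^ (2 * k)) h]
    exact mQ _ _ (by linarith) (by linarith) (by linarith)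
  have n1 := mul_le_mul_of_nonneg_left m1 hA0
  have n2 := mul_le_mul_of_nonneg_left m2 hA0
  have n3 : (2 * V - L - 1 - (V + L)) * (3 * A) ≤ V * (3 * A) :=
    mul_le_mul_of_nonneg_right (by linarith) (by linarith)
  have e : K * V = 4 * (3 * A * V + (A * (6 * V * (CQ / k) ^ k) + A * (6 * V * (CQ / k) ^ k)) +
      (CS + 8) * V) + V := by
    rw [hK]; ring
  rw [e]
  linarith

end Pool.Agent.H666.CF
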