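import Mathlib

/-! A random model for short sums over primes. -/

set_option linter.unusedSectionVars false

open Finset Complex

namespace Pool.Agent.H666.CF

/-- the primitive root of unity -/
noncomputable def zr (N : ℕ) : ℂ := Complex.exp (2 * Real.pi * I / N)

lemma zr_prim {N : ℕ} (hN : N ≠ 0) : IsPrimitiveRoot (zr N) N := Complex.isPrimitiveRoot_exp N hN

lemma zr_norm (N : ℕ) : ‖zr N‖ = 1 := by
  unfold zr
  have e : (2 * (Real.pi : ℂ) * I / N) = ((2 * Real.pi / N : ℝ) : ℂ) * I := by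
    push_cast; ring
  rw [e, Complex.norm_exp_ofReal_mul_I]

lemma zr_pow_norm (N : ℕ) (z : ℕ) : ‖zr N ^ z‖ = 1 := by
  rw [norm_pow, zr_norm, one_pow]

lemma zr_ne (N : ℕ) : zr N ≠ 0 := by
  intro h
  have := zr_norm N
  rw [h] at this
  simp at this

/-- the power sums -/
lemma sum_zpow {N : ℕ} (hN : N ≠ 0) (e : ℤ) :
    ∑ z : Fin N, (zr N ^ (z : ℕ)) ^ e = if (N : ℤ) ∣ e then (N : ℂ) else 0 := by
  have hp := zr_prim hN
  have e1 : ∀ z : Fin N, (zr N ^ (z : ℕ)) ^ e = (zr N ^ e) ^ (z : ℕ) := by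
    intro z
    rw [← zpow_natCast, ← zpow_natCast, ← zpow_mul, ← zpow_mul, mul_comm]
  simp_rw [e1]
  rw [Fin.sum_univ_eq_sum_range (fun z => (zr N ^ e) ^ z)]
  split_ifs with h
  · have : zr N ^ e = 1 := (hp.zpow_eq_one_iff_dvd e).2 h
    rw [this]
    simp
  · have h1 : zr N ^ e ≠ 1 := fun h2 => h ((hp.zpow_eq_one_iff_dvd e).1 h2)
    rw [geom_sum_eq h1]
    have h2 : (zr N ^ e) ^ N = 1 := by
      rw [← zpow_natCast, ← zpow_mul, mul_comm, zpow_mul, zpow_natCast, hp.pow_eq_one, one_zpow]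
    rw [h2, sub_self, zero_div]

variable {ι : Type} [Fintype ι] [DecidableEq ι]

/-- the average over the model -/
noncomputable def Ex (N : ℕ) (F : (ι → Fin N) → ℂ) : ℂ :=
  (∑ ω : ι → Fin N, F ω) / (N : ℂ) ^ (Fintype.card ι)

/-- the average of a real function -/
noncomputable def Er (N : ℕ) (F : (ι → Fin N) → ℝ) : ℝ :=
  (∑ ω : ι → Fin N, F ω) / (N : ℝ) ^ (Fintype.card ι)

lemma Ex_ofReal (N : ℕ) (F : (ι → Fin N) → ℝ) : Ex N (fun ω => (F ω : ℂ)) = (Er N F : ℂ) := by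
  unfold Ex Er
  push_cast
  rfl

/-- independence -/
lemma Ex_prod (N : ℕ) (g : ι → Fin N → ℂ) :
    Ex N (fun ω => ∏ p, g p (ω p)) = ∏ p, ((∑ z, g p z) / N) := by
  unfold Ex
  have h := Finset.prod_univ_sum (fun _ : ι => (Finset.univ : Finset (Fin N))) g
  rw [Fintype.piFinset_univ] at h
  rw [← h, Finset.prod_div_distrib]
  congr 1
  simp

lemma Er_prod (N : ℕ) (g : ι → Fin N → ℝ) :
    Er N (fun ω => ∏ p, g p (ω p)) = ∏ p, ((∑ z, g p z) / N) := by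
  unfold Er
  have h := Finset.prod_univ_sum (fun _ : ι => (Finset.univ : Finset (Fin N))) g
  rw [Fintype.piFinset_univ] at h
  rw [← h, Finset.prod_div_distrib]
  congr 1
  simp

lemma Ex_norm_le (N : ℕ) (F : (ι → Fin N) → ℂ) : ‖Ex N F‖ ≤ Er N (fun ω => ‖F ω‖) := by
  unfold Ex Er
  rw [norm_div, norm_pow, Complex.norm_natCast]
  exact div_le_div_of_nonneg_right (norm_sum_le _ _) (by positivity)

lemma Er_mono (N : ℕ) {F G : (ι → Fin N) → ℝ} (h : ∀ ω, F ω ≤ G ω) : Er N F ≤ Er N G := by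
  unfold Er
  exact div_le_div_of_nonneg_right (Finset.sum_le_sum fun ω _ => h ω) (by positivity)

lemma Er_const_mul (N : ℕ) (c : ℝ) (F : (ι → Fin N) → ℝ) : Er N (fun ω => c * F ω) = c * Er N F := by
  unfold Er
  rw [← Finset.mul_sum]
  ring

lemma Er_add (N : ℕ) (F G : (ι → Fin N) → ℝ) : Er N (fun ω => F ω + G ω) = Er N F + Er N G := by
  unfold Er
  rw [Finset.sum_add_distrib]
  ring

lemma Ex_const_mul (N : ℕ) (c : ℂ) (F : (ι → Fin N) → ℂ) : Ex N (fun ω => c * F ω) = c * Ex N F := by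
  unfold Ex
  rw [← Finset.mul_sum]
  ring

lemma Ex_sum (N : ℕ) {κ : Type} (s : Finset κ) (F : κ → (ι → Fin N) → ℂ) :
    Ex N (fun ω => ∑ k ∈ s, F k ω) = ∑ k ∈ s, Ex N (F k) := by
  unfold Ex
  rw [Finset.sum_comm, Finset.sum_div]

lemma Ex_sub (N : ℕ) (F G : (ι → Fin N) → ℂ) : Ex N (fun ω => F ω - G ω) = Ex N F - Ex N G := by
  unfold Ex
  rw [Finset.sum_sub_distrib]
  ring

/-- the random sum -/
noncomputable def Xw (N : ℕ) (a : ι → ℂ) (ω : ι → Fin N) : ℝ :=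
  ∑ p, (a p * zr N ^ (ω p : ℕ)).re

/-! ### One variable -/

/-- average over the roots of unity -/
noncomputable def av (N : ℕ) (g : ℂ → ℝ) : ℝ := (∑ z : Fin N, g (zr N ^ (z : ℕ))) / N

lemma re_eq (w : ℂ) : ((w.re : ℝ) : ℂ) = (w + (starRingEnd ℂ) w) / 2 := by
  rw [Complex.add_conj]
  push_cast
  ring

lemma conj_pow (N : ℕ) (z : ℕ) : (starRingEnd ℂ) (zr N ^ z) = (zr N ^ z)⁻¹ := by
  have h := zr_pow_norm N z
  rw [Complex.inv_def, Complex.normSq_eq_norm_sq, h]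
  simp

lemma av_lin {N : ℕ} (hN : 2 ≤ N) (a : ℂ) : av N (fun u => (a * u).re) = 0 := by
  have h1 := sum_zpow (N := N) (by omega) 1
  have h2 : ¬ (N : ℤ) ∣ 1 := by
    intro h
    have := Int.le_of_dvd one_pos h
    omega
  rw [if_neg h2] at h1
  simp only [zpow_one] at h1
  unfold av
  have : ∑ z : Fin N, (a * zr N ^ (z : ℕ)).re = (a * ∑ z : Fin N, zr N ^ (z : ℕ)).re := by
    rw [Finset.mul_sum, Complex.re_sum]
  rw [this, h1]
  simp

lemma av_sq {N : ℕ} (hN : 3 ≤ N) (a : ℂ) : av N (fun u => (a * u).re ^ 2) = ‖a‖ ^ 2 / 2 := by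
  have h1 := sum_zpow (N := N) (by omega) 2
  have h2 : ¬ (N : ℤ) ∣ 2 := by
    intro h
    have := Int.le_of_dvd two_pos h
    omega
  rw [if_neg h2] at h1
  have hsq : ∀ w : ℂ, w.re ^ 2 = ‖w‖ ^ 2 / 2 + (w ^ 2).re / 2 := by
    intro w
    rw [← Complex.normSq_eq_norm_sq, Complex.normSq_apply, sq w, Complex.mul_re]
    ring
  unfold av
  have e : ∀ z : Fin N, (a * zr N ^ (z : ℕ)).re ^ 2 =
      ‖a‖ ^ 2 / 2 + (a ^ 2 * (zr N ^ (z : ℕ)) ^ (2 : ℤ)).re / 2 := by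
    intro z
    rw [hsq, norm_mul, zr_pow_norm, mul_one, mul_pow]
    norm_cast
  simp_rw [e]
  have h3 : ∑ z : Fin N, (a ^ 2 * (zr N ^ (z : ℕ)) ^ (2 : ℤ)).re = 0 := by
    rw [← Complex.re_sum, ← Finset.mul_sum, h1]
    simp
  rw [Finset.sum_add_distrib, ← Finset.sum_div Finset.univ (fun z : Fin N =>
    (a ^ 2 * (zr N ^ (z : ℕ)) ^ (2 : ℤ)).re), h3]
  have hN0 : (N : ℝ) ≠ 0 := by
    have : N ≠ 0 := by omega
    exact_mod_cast this
  simp
  field_simp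

lemma av_abs_le {N : ℕ} (hN : N ≠ 0) {g : ℂ → ℝ} {C : ℝ} (h : ∀ u : ℂ, ‖u‖ = 1 → g u ≤ C) :
    av N g ≤ C := by
  unfold av
  have hN0 : (0 : ℝ) < N := by
    have : 0 < N := by omega
    exact_mod_cast this
  rw [div_le_iff₀ hN0]
  calc ∑ z : Fin N, g (zr N ^ (z : ℕ)) ≤ ∑ z : Fin N, C :=
        Finset.sum_le_sum fun z _ => h _ (zr_pow_norm N z)
    _ = C * N := by simp [mul_comm]

/-- the exponential moment of one variable -/
lemma av_exp {N : ℕ} (hN : 3 ≤ N) (a : ℂ) {s : ℝ} (hs : |s| * ‖a‖ ≤ 1) :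
    av N (fun u => Real.exp (s * (a * u).re)) ≤ Real.exp (s ^ 2 * ‖a‖ ^ 2 / 2) := by
  have hN0 : (0 : ℝ) < N := by
    have : 0 < N := by omega
    exact_mod_cast this
  have h1 : ∀ u : ℂ, ‖u‖ = 1 → Real.exp (s * (a * u).re) ≤
      1 + s * (a * u).re + s ^ 2 * (a * u).re ^ 2 := by
    intro u hu
    have h2 : |s * (a * u).re| ≤ 1 := by
      rw [abs_mul]
      refine le_trans (mul_le_mul_of_nonneg_left ?_ (abs_nonneg s)) hs
      refine (Complex.abs_re_le_norm _).trans ?_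
      rw [norm_mul, hu, mul_one]
    have h3 := (abs_le.1 (Real.abs_exp_sub_one_sub_id_le h2)).2
    have h4 : (s * (a * u).re) ^ 2 = s ^ 2 * (a * u).re ^ 2 := by ring
    linarith
  have h2 : av N (fun u => Real.exp (s * (a * u).re)) ≤
      1 + s * av N (fun u => (a * u).re) + s ^ 2 * av N (fun u => (a * u).re ^ 2) := by
    unfold av
    have e : 1 + s * ((∑ z : Fin N, (a * zr N ^ (z : ℕ)).re) / N) +
        s ^ 2 * ((∑ z : Fin N, (a * zr N ^ (z : ℕ)).re ^ 2) / N) =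
        (∑ z : Fin N, (1 + s * (a * zr N ^ (z : ℕ)).re + s ^ 2 * (a * zr N ^ (z : ℕ)).re ^ 2)) / N := by
      rw [Finset.sum_add_distrib, Finset.sum_add_distrib, ← Finset.mul_sum, ← Finset.mul_sum]
      simp
      field_simp
    rw [e]
    exact div_le_div_of_nonneg_right (Finset.sum_le_sum fun z _ => h1 _ (zr_pow_norm N z)) hN0.le
  rw [av_lin (by omega), av_sq hN] at h2
  refine h2.trans ?_
  have := Real.add_one_le_exp (s ^ 2 * ‖a‖ ^ 2 / 2)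
  linarith

/-- complex average over the roots of unity -/
noncomputable def avc (N : ℕ) (g : ℂ → ℂ) : ℂ := (∑ z : Fin N, g (zr N ^ (z : ℕ))) / N

/-- the characteristic function of one variable -/
lemma avc_char {N : ℕ} (hN : 3 ≤ N) (a : ℂ) {u : ℝ} (hu : |u| * ‖a‖ ≤ 1) :
    ‖avc N (fun z => Complex.exp (I * (u * (a * z).re : ℝ))) -
      (Real.exp (-(u ^ 2 * ‖a‖ ^ 2 / 4)) : ℂ)‖ ≤ 2 * (|u| * ‖a‖) ^ 3 := by
  have hN0 : (0 : ℝ) < N := by
    have : 0 < N := by omega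
    exact_mod_cast this
  have hNc : (N : ℂ) ≠ 0 := by
    have : N ≠ 0 := by omega
    exact_mod_cast this
  set r := |u| * ‖a‖ with hr
  have hr0 : 0 ≤ r := by positivity
  have h1 : ∀ z : ℂ, ‖z‖ = 1 → ‖Complex.exp (I * (u * (a * z).re : ℝ)) -
      (1 + I * (u * (a * z).re : ℝ) - ((u * (a * z).re : ℝ) : ℂ) ^ 2 / 2)‖ ≤ r ^ 3 := by
    intro z hz
    set y : ℝ := u * (a * z).re with hy
    have hyr : |y| ≤ r := by
      rw [hy, abs_mul]
      refine mul_le_mul_of_nonneg_left ?_ (abs_nonneg u)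
      refine (Complex.abs_re_le_norm _).trans ?_
      rw [norm_mul, hz, mul_one]
    have hIy : ‖I * (y : ℂ)‖ = |y| := by
      rw [norm_mul, Complex.norm_I, one_mul, Complex.norm_real, Real.norm_eq_abs]
    have h2 := Complex.exp_bound (x := I * (y : ℂ)) (by rw [hIy]; linarith) (n := 3) (by norm_num)
    rw [hIy] at h2
    have e : ∑ m ∈ Finset.range 3, (I * (y : ℂ)) ^ m / (m.factorial : ℂ) =
        1 + I * (y : ℂ) - (y : ℂ) ^ 2 / 2 := by
      rw [Finset.sum_range_succ, Finset.sum_range_succ, Finset.sum_range_succ,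
        Finset.sum_range_zero]
      have e2 : (I * (y : ℂ)) ^ 2 = -(y : ℂ) ^ 2 := by rw [mul_pow, I_sq]; ring
      rw [e2]
      simp [Nat.factorial]
      ring
    rw [e] at h2
    refine h2.trans ?_
    have h3 : |y| ^ 3 ≤ r ^ 3 := pow_le_pow_left₀ (abs_nonneg y) hyr 3
    have h4 : ((Nat.succ 3 : ℕ) : ℝ) * ((Nat.factorial 3 : ℝ) * ((3 : ℕ) : ℝ))⁻¹ ≤ 1 := by
      norm_num [Nat.factorial]
    have h5 : 0 ≤ |y| ^ 3 := by positivity
    calc |y| ^ 3 * (((Nat.succ 3 : ℕ) : ℝ) * ((Nat.factorial 3 : ℝ) * ((3 : ℕ) : ℝ))⁻¹) ≤ |y| ^ 3 * 1 :=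
          mul_le_mul_of_nonneg_left h4 h5
      _ ≤ r ^ 3 := by linarith
  have h2 : ‖avc N (fun z => Complex.exp (I * (u * (a * z).re : ℝ))) -
      ((1 - u ^ 2 * ‖a‖ ^ 2 / 4 : ℝ) : ℂ)‖ ≤ r ^ 3 := by
    have h3 := av_lin (N := N) (by omega) a
    have h4 := av_sq hN a
    unfold av at h3 h4
    rw [div_eq_iff hN0.ne'] at h3 h4
    have e : ((1 - u ^ 2 * ‖a‖ ^ 2 / 4 : ℝ) : ℂ) =
        (∑ z : Fin N, (1 + I * (u * (a * zr N ^ (z : ℕ)).re : ℝ) -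
          ((u * (a * zr N ^ (z : ℕ)).re : ℝ) : ℂ) ^ 2 / 2)) / N := by
      rw [eq_div_iff hNc, Finset.sum_sub_distrib, Finset.sum_add_distrib, ← Finset.mul_sum,
        ← Finset.sum_div]
      have e1 : ∑ z : Fin N, ((u * (a * zr N ^ (z : ℕ)).re : ℝ) : ℂ) = 0 := by
        rw [← Complex.ofReal_sum, ← Finset.mul_sum, h3]
        simp
      have e2 : ∑ z : Fin N, ((u * (a * zr N ^ (z : ℕ)).re : ℝ) : ℂ) ^ 2 =
          ((u ^ 2 * (‖a‖ ^ 2 / 2 * N) : ℝ) : ℂ) := by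
        rw [← h4, Finset.mul_sum]
        push_cast
        apply Finset.sum_congr rfl
        intro z _
        ring
      rw [e1, e2]
      simp
      ring
    rw [e]
    unfold avc
    rw [← sub_div, ← Finset.sum_sub_distrib, norm_div, Complex.norm_natCast, div_le_iff₀ hN0]
    refine (norm_sum_le _ _).trans ?_
    calc ∑ z : Fin N, ‖Complex.exp (I * (u * (a * zr N ^ (z : ℕ)).re : ℝ)) -
          (1 + I * (u * (a * zr N ^ (z : ℕ)).re : ℝ) -
          ((u * (a * zr N ^ (z : ℕ)).re : ℝ) : ℂ) ^ 2 / 2)‖ ≤ ∑ z : Fin N, r ^ 3 :=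
          Finset.sum_le_sum fun z _ => h1 _ (zr_pow_norm N z)
      _ = r ^ 3 * N := by simp [mul_comm]
  have h3 : ‖((1 - u ^ 2 * ‖a‖ ^ 2 / 4 : ℝ) : ℂ) - (Real.exp (-(u ^ 2 * ‖a‖ ^ 2 / 4)) : ℂ)‖ ≤ r ^ 3 := by
    rw [← Complex.ofReal_sub, Complex.norm_real, Real.norm_eq_abs, abs_sub_comm]
    set y := -(u ^ 2 * ‖a‖ ^ 2 / 4) with hy
    have hyr : |y| = r ^ 2 / 4 := by
      rw [hy, abs_neg, abs_of_nonneg (by positivity), hr, mul_pow, sq_abs]
    have h4 := Real.abs_exp_sub_one_sub_id_le (x := y) (by rw [hyr]; nlinarith)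
    have h5 : y ^ 2 = (r ^ 2 / 4) ^ 2 := by rw [← sq_abs, hyr]
    have h6 : Real.exp y - (1 - u ^ 2 * ‖a‖ ^ 2 / 4) = Real.exp y - 1 - y := by rw [hy]; ring
    rw [h6]
    refine h4.trans ?_
    rw [h5]
    have h7 : r ^ 4 ≤ r ^ 3 := pow_le_pow_of_le_one hr0 hu (by norm_num)
    have h8 : (r ^ 2 / 4) ^ 2 = r ^ 4 / 16 := by ring
    have h9 : 0 ≤ r ^ 4 := by positivity
    rw [h8]
    linarith
  calc _ ≤ _ := norm_sub_le_norm_sub_add_norm_sub _ ((1 - u ^ 2 * ‖a‖ ^ 2 / 4 : ℝ) : ℂ) _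
    _ ≤ _ := by linarith

/-- products of numbers in the unit disc -/
lemma prod_sub_le {κ : Type} (s : Finset κ) (f g : κ → ℂ) (hf : ∀ k ∈ s, ‖f k‖ ≤ 1)
    (hg : ∀ k ∈ s, ‖g k‖ ≤ 1) : ‖∏ k ∈ s, f k - ∏ k ∈ s, g k‖ ≤ ∑ k ∈ s, ‖f k - g k‖ := by
  classical
  induction s using Finset.induction_on with
  | empty => simp
  | insert k s hk ih =>
    rw [Finset.prod_insert hk, Finset.prod_insert hk, Finset.sum_insert hk]
    have h1 := ih (fun j hj => hf j (Finset.mem_insert_of_mem hj))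
      (fun j hj => hg j (Finset.mem_insert_of_mem hj))
    have h2 : ‖∏ j ∈ s, f j‖ ≤ 1 := by
      rw [norm_prod]
      exact Finset.prod_le_one (fun _ _ => norm_nonneg _)
        (fun j hj => hf j (Finset.mem_insert_of_mem hj))
    have h3 := hg k (Finset.mem_insert_self k s)
    have e : f k * ∏ j ∈ s, f j - g k * ∏ j ∈ s, g j =
        (f k - g k) * ∏ j ∈ s, f j + g k * (∏ j ∈ s, f j - ∏ j ∈ s, g j) := by ring
    rw [e]
    refine (norm_add_le _ _).trans ?_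
    rw [norm_mul, norm_mul]
    have h4 : ‖f k - g k‖ * ‖∏ j ∈ s, f j‖ ≤ ‖f k - g k‖ * 1 :=
      mul_le_mul_of_nonneg_left h2 (norm_nonneg _)
    have h5 : ‖g k‖ * ‖∏ j ∈ s, f j - ∏ j ∈ s, g j‖ ≤ 1 * ‖∏ j ∈ s, f j - ∏ j ∈ s, g j‖ :=
      mul_le_mul_of_nonneg_right h3 (norm_nonneg _)
    linarith

/-- **the characteristic function of the random sum** -/
lemma Ex_char {N : ℕ} (hN : 3 ≤ N) (a : ι → ℂ) {u ρ : ℝ} (hρ : ∀ p, ‖a p‖ ≤ ρ)
    (hu : |u| * ρ ≤ 1) :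
    ‖Ex N (fun ω => Complex.exp (I * (u * Xw N a ω : ℝ))) -
      (Real.exp (-(u ^ 2 * (∑ p, ‖a p‖ ^ 2) / 4)) : ℂ)‖ ≤
      2 * |u| ^ 3 * ρ * ∑ p, ‖a p‖ ^ 2 := by
  have hua : ∀ p, |u| * ‖a p‖ ≤ 1 := fun p =>
    (mul_le_mul_of_nonneg_left (hρ p) (abs_nonneg u)).trans hu
  have e1 : ∀ ω : ι → Fin N, Complex.exp (I * (u * Xw N a ω : ℝ)) =
      ∏ p, Complex.exp (I * (u * (a p * zr N ^ (ω p : ℕ)).re : ℝ)) := by
    intro ω
    rw [← Complex.exp_sum]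
    congr 1
    unfold Xw
    rw [← Finset.mul_sum]
    congr 1
    push_cast
    rw [Finset.mul_sum]
  simp_rw [e1]
  rw [Ex_prod N (fun p z => Complex.exp (I * (u * (a p * zr N ^ (z : ℕ)).re : ℝ)))]
  have e2 : (Real.exp (-(u ^ 2 * (∑ p, ‖a p‖ ^ 2) / 4)) : ℂ) =
      ∏ p, (Real.exp (-(u ^ 2 * ‖a p‖ ^ 2 / 4)) : ℂ) := by
    rw [← Complex.ofReal_prod, ← Real.exp_sum]
    congr 2
    rw [Finset.sum_neg_distrib, ← Finset.sum_div, ← Finset.mul_sum]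
  rw [e2]
  have hN0 : (0 : ℝ) < N := by
    have : 0 < N := by omega
    exact_mod_cast this
  refine (prod_sub_le _ _ _ ?_ ?_).trans ?_
  · intro p _
    rw [norm_div, Complex.norm_natCast, div_le_one hN0]
    refine (norm_sum_le _ _).trans ?_
    have : ∀ z : Fin N, ‖Complex.exp (I * (u * (a p * zr N ^ (z : ℕ)).re : ℝ))‖ = 1 := by
      intro z
      rw [mul_comm, Complex.norm_exp_ofReal_mul_I]
    simp_rw [this]
    simp
  · intro p _
    rw [Complex.norm_real, Real.norm_of_nonneg (Real.exp_pos _).le]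
    rw [Real.exp_le_one_iff]
    have : 0 ≤ u ^ 2 * ‖a p‖ ^ 2 / 4 := by positivity
    linarith
  · rw [Finset.mul_sum]
    apply Finset.sum_le_sum
    intro p _
    refine (avc_char hN (a p) (hua p)).trans ?_
    have h0 : 0 ≤ ‖a p‖ := norm_nonneg _
    have h1 : (|u| * ‖a p‖) ^ 3 = |u| ^ 3 * (‖a p‖ * ‖a p‖ ^ 2) := by ring
    have h2 : ‖a p‖ * ‖a p‖ ^ 2 ≤ ρ * ‖a p‖ ^ 2 := mul_le_mul_of_nonneg_right (hρ p) (by positivity)
    have h3 : |u| ^ 3 * (‖a p‖ * ‖a p‖ ^ 2) ≤ |u| ^ 3 * (ρ * ‖a p‖ ^ 2) :=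
      mul_le_mul_of_nonneg_left h2 (by positivity)
    rw [h1]
    linarith

/-- **the exponential moment of the random sum** -/
lemma Er_exp {N : ℕ} (hN : 3 ≤ N) (a : ι → ℂ) {s ρ : ℝ} (hρ : ∀ p, ‖a p‖ ≤ ρ)
    (hs : |s| * ρ ≤ 1) :
    Er N (fun ω => Real.exp (s * Xw N a ω)) ≤ Real.exp (s ^ 2 * (∑ p, ‖a p‖ ^ 2) / 2) := by
  have hsa : ∀ p, |s| * ‖a p‖ ≤ 1 := fun p =>
    (mul_le_mul_of_nonneg_left (hρ p) (abs_nonneg s)).trans hs
  have e1 : ∀ ω : ι → Fin N, Real.exp (s * Xw N a ω) =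
      ∏ p, Real.exp (s * (a p * zr N ^ (ω p : ℕ)).re) := by
    intro ω
    rw [← Real.exp_sum]
    unfold Xw
    rw [Finset.mul_sum]
  simp_rw [e1]
  rw [Er_prod N (fun p z => Real.exp (s * (a p * zr N ^ (z : ℕ)).re))]
  have e2 : Real.exp (s ^ 2 * (∑ p, ‖a p‖ ^ 2) / 2) = ∏ p, Real.exp (s ^ 2 * ‖a p‖ ^ 2 / 2) := by
    rw [← Real.exp_sum]
    congr 1
    rw [← Finset.sum_div, ← Finset.mul_sum]
  rw [e2]
  apply Finset.prod_le_prod
  · intro p _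
    exact div_nonneg (Finset.sum_nonneg fun _ _ => (Real.exp_pos _).le) (Nat.cast_nonneg N)
  · intro p _
    exact av_exp hN (a p) (hsa p)

/-- `x^J / J! ≤ exp x + exp (-x)` for even `J` -/
lemma pow_le_exp {J : ℕ} (hJ : Even J) (x : ℝ) :
    x ^ J / J.factorial ≤ Real.exp x + Real.exp (-x) := by
  have h1 : x ^ J = |x| ^ J := by
    rw [← abs_pow, abs_of_nonneg (hJ.pow_nonneg x)]
  have h2 := Real.pow_div_factorial_le_exp |x| (abs_nonneg x) J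
  rw [h1]
  refine h2.trans ?_
  rcases abs_cases x with ⟨h, _⟩ | ⟨h, _⟩
  · rw [h]
    have := (Real.exp_pos (-x)).le
    linarith
  · rw [h]
    have := (Real.exp_pos x).le
    linarith

/-- **even moments of the random sum** -/
lemma Er_pow {N : ℕ} (hN : 3 ≤ N) (a : ι → ℂ) {s ρ : ℝ} (hρ : ∀ p, ‖a p‖ ≤ ρ)
    (hs : |s| * ρ ≤ 1) {J : ℕ} (hJ : Even J) :
    Er N (fun ω => (s * Xw N a ω) ^ J) ≤
      J.factorial * (2 * Real.exp (s ^ 2 * (∑ p, ‖a p‖ ^ 2) / 2)) := by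
  have hf : (0 : ℝ) < J.factorial := by exact_mod_cast Nat.factorial_pos J
  have h1 : Er N (fun ω => (s * Xw N a ω) ^ J) ≤
      Er N (fun ω => J.factorial * (Real.exp (s * Xw N a ω) + Real.exp ((-s) * Xw N a ω))) := by
    apply Er_mono
    intro ω
    have := pow_le_exp hJ (s * Xw N a ω)
    rw [div_le_iff₀ hf] at this
    have e : -s * Xw N a ω = -(s * Xw N a ω) := by ring
    rw [e]
    linarith
  rw [Er_const_mul, Er_add] at h1
  refine h1.trans ?_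
  apply mul_le_mul_of_nonneg_left _ hf.le
  have h2 := Er_exp hN a hρ hs
  have h3 := Er_exp hN a (s := -s) hρ (by rwa [abs_neg])
  rw [neg_sq] at h3
  linarith

end Pool.Agent.H666.CF
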