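import Pool.Agent.H666.CF.Rm

/-! Moments of short sums over primes against the random model. -/

set_option linter.unusedSectionVars false

open Finset Complex MeasureTheory

namespace Pool.Agent.H666.CF

variable {ι : Type} [Fintype ι] [DecidableEq ι]

/-- coefficients of the letters -/
noncomputable def cc (a : ι → ℂ) (q : ι × Bool) : ℂ :=
  if q.2 then a q.1 / 2 else (starRingEnd ℂ) (a q.1) / 2

/-- the letters -/
noncomputable def ww (U : ι → ℂ) (q : ι × Bool) : ℂ :=
  if q.2 then U q.1 else (starRingEnd ℂ) (U q.1)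

/-- exponents of a word -/
def ee {j : ℕ} (f : Fin j → ι × Bool) (p : ι) : ℤ :=
  ((univ.filter fun i => f i = (p, true)).card : ℤ) - ((univ.filter fun i => f i = (p, false)).card : ℤ)

lemma X_eq (a U : ι → ℂ) : ((∑ p, (a p * U p).re : ℝ) : ℂ) = ∑ q : ι × Bool, cc a q * ww U q := by
  rw [Fintype.sum_prod_type, Complex.ofReal_sum]
  apply Finset.sum_congr rfl
  intro p _
  rw [Fintype.sum_bool, re_eq]
  simp [cc, ww]
  ring

lemma X_pow (a U : ι → ℂ) (j : ℕ) : ((∑ p, (a p * U p).re : ℝ) : ℂ) ^ j =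
    ∑ f : Fin j → ι × Bool, (∏ i, cc a (f i)) * ∏ i, ww U (f i) := by
  rw [X_eq, Fintype.sum_pow]
  apply Finset.sum_congr rfl
  intro f _
  rw [Finset.prod_mul_distrib]

lemma prod_fib {M : Type} [CommMonoid M] {j : ℕ} (f : Fin j → ι × Bool) (g : ι × Bool → M) :
    ∏ i, g (f i) = ∏ p, (g (p, true) ^ (univ.filter fun i => f i = (p, true)).card *
      g (p, false) ^ (univ.filter fun i => f i = (p, false)).card) := by
  rw [← Finset.prod_fiberwise univ f (fun i => g (f i)), Fintype.prod_prod_type]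
  apply Finset.prod_congr rfl
  intro p _
  rw [Fintype.prod_bool]
  congr 1
  · rw [Finset.prod_congr rfl (g := fun _ => g (p, true)), Finset.prod_const]
    intro i hi
    rw [(Finset.mem_filter.1 hi).2]
  · rw [Finset.prod_congr rfl (g := fun _ => g (p, false)), Finset.prod_const]
    intro i hi
    rw [(Finset.mem_filter.1 hi).2]

lemma word_eq {j : ℕ} (f : Fin j → ι × Bool) {U : ι → ℂ} (hU : ∀ p, ‖U p‖ = 1) :
    ∏ i, ww U (f i) = ∏ p, U p ^ ee f p := by
  rw [prod_fib f (ww U)]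
  apply Finset.prod_congr rfl
  intro p _
  have h0 : U p ≠ 0 := by
    intro h
    have := hU p
    rw [h] at this
    simp at this
  have h1 : (starRingEnd ℂ) (U p) = (U p)⁻¹ := by
    rw [Complex.inv_def, Complex.normSq_eq_norm_sq, hU]
    simp
  unfold ee ww
  rw [zpow_sub₀ h0, zpow_natCast, zpow_natCast]
  simp [h1, div_eq_mul_inv]

lemma ee_lt {j : ℕ} (f : Fin j → ι × Bool) (p : ι) : |ee f p| ≤ j := by
  unfold ee
  have h1 : (univ.filter fun i => f i = (p, true)).card ≤ j := by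
    have := Finset.card_le_univ (univ.filter fun i => f i = (p, true))
    simpa using this
  have h2 : (univ.filter fun i => f i = (p, false)).card ≤ j := by
    have := Finset.card_le_univ (univ.filter fun i => f i = (p, false))
    simpa using this
  rw [abs_le]
  constructor <;> omega

/-- the word in the random model -/
lemma Ex_word {N j : ℕ} (hN : j < N) (f : Fin j → ι × Bool) :
    Ex N (fun ω : ι → Fin N => ∏ i, ww (fun p => zr N ^ (ω p : ℕ)) (f i)) =
      if ∀ p, ee f p = 0 then 1 else 0 := by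
  have hN0 : N ≠ 0 := by omega
  have hNc : (N : ℂ) ≠ 0 := by exact_mod_cast hN0
  have e1 : ∀ ω : ι → Fin N, ∏ i, ww (fun p => zr N ^ (ω p : ℕ)) (f i) =
      ∏ p, (zr N ^ (ω p : ℕ)) ^ ee f p := fun ω => word_eq f fun p => zr_pow_norm N _
  simp_rw [e1]
  rw [Ex_prod N (fun p z => (zr N ^ (z : ℕ)) ^ ee f p)]
  simp_rw [sum_zpow hN0]
  split_ifs with h
  · apply Finset.prod_eq_one
    intro p _
    rw [h p, if_pos (dvd_zero _), div_self hNc]
  · push Not at h
    obtain ⟨p, hp⟩ := h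
    apply Finset.prod_eq_zero (Finset.mem_univ p)
    rw [if_neg, zero_div]
    intro hd
    have h1 := Int.eq_zero_of_abs_lt_dvd hd (lt_of_le_of_lt (ee_lt f p) (by exact_mod_cast hN))
    exact hp h1

/-- the phases -/
noncomputable def et (P : ι → ℕ) (t : ℝ) (p : ι) : ℂ := Complex.exp ((-(t * Real.log (P p)) : ℝ) * I)

lemma et_norm (P : ι → ℕ) (t : ℝ) (p : ι) : ‖et P t p‖ = 1 := Complex.norm_exp_ofReal_mul_I _

/-- frequency of a word -/
noncomputable def th (P : ι → ℕ) {j : ℕ} (f : Fin j → ι × Bool) : ℝ :=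
  ∑ i, (if (f i).2 then -Real.log (P (f i).1) else Real.log (P (f i).1))

lemma word_time (P : ι → ℕ) (t : ℝ) {j : ℕ} (f : Fin j → ι × Bool) :
    ∏ i, ww (et P t) (f i) = Complex.exp ((th P f * I) * t) := by
  have h : ∀ i, ww (et P t) (f i) =
      Complex.exp (((if (f i).2 then -Real.log (P (f i).1) else Real.log (P (f i).1) : ℝ) * I) * t) := by
    intro i
    unfold ww et
    split_ifs with h
    · congr 1
      push_cast
      ring
    · rw [← Complex.exp_conj]
      congr 1
      rw [map_mul, Complex.conj_I, Complex.conj_ofReal]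
      push_cast
      ring
  simp_rw [h]
  rw [← Complex.exp_sum]
  congr 1
  unfold th
  push_cast
  rw [Finset.sum_mul, Finset.sum_mul]

/-- the two products of a word -/
def mp (P : ι → ℕ) {j : ℕ} (f : Fin j → ι × Bool) (b : Bool) : ℕ :=
  ∏ i, (if (f i).2 = b then P (f i).1 else 1)

lemma mp_eq (P : ι → ℕ) {j : ℕ} (f : Fin j → ι × Bool) (b : Bool) :
    mp P f b = ∏ p, P p ^ (univ.filter fun i => f i = (p, b)).card := by
  unfold mp
  rw [prod_fib f (fun q => if q.2 = b then P q.1 else 1)]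
  apply Finset.prod_congr rfl
  intro p _
  cases b <;> simp

lemma mp_le {P : ι → ℕ} {X : ℕ} (hX : 1 ≤ X) (hP : ∀ p, P p ≤ X) {j : ℕ} (f : Fin j → ι × Bool)
    (b : Bool) : mp P f b ≤ X ^ j := by
  unfold mp
  calc ∏ i, (if (f i).2 = b then P (f i).1 else 1) ≤ ∏ _i : Fin j, X := by
        apply Finset.prod_le_prod' 
        intro i _
        split_ifs
        · exact hP _
        · exact hX
    _ = X ^ j := by simp

lemma mp_pos {P : ι → ℕ} (hP : ∀ p, (P p).Prime) {j : ℕ} (f : Fin j → ι × Bool) (b : Bool) :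
    0 < mp P f b := by
  unfold mp
  apply Finset.prod_pos
  intro i _
  split_ifs
  · exact (hP _).pos
  · exact one_pos

lemma th_eq {P : ι → ℕ} (hP : ∀ p, (P p).Prime) {j : ℕ} (f : Fin j → ι × Bool) :
    th P f = Real.log (mp P f false) - Real.log (mp P f true) := by
  unfold th mp
  push_cast
  rw [Real.log_prod, Real.log_prod, ← Finset.sum_sub_distrib]
  · apply Finset.sum_congr rfl
    intro i _
    cases h : (f i).2 <;> simp
  · intro i _
    have := (hP (f i).1).ne_zero
    split_ifs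
    · exact_mod_cast this
    · norm_num
  · intro i _
    have := (hP (f i).1).ne_zero
    split_ifs
    · exact_mod_cast this
    · norm_num

lemma mp_fact {P : ι → ℕ} (hP : ∀ p, (P p).Prime) (hinj : Function.Injective P) {j : ℕ}
    (f : Fin j → ι × Bool) (b : Bool) (p : ι) :
    (mp P f b).factorization (P p) = (univ.filter fun i => f i = (p, b)).card := by
  rw [mp_eq, Nat.factorization_prod]
  · rw [Finsupp.finsetSum_apply, Finset.sum_eq_single p]
    · rw [(hP p).factorization_pow]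
      simp
    · intro q _ hq
      rw [(hP q).factorization_pow]
      have : P q ≠ P p := fun h => hq (hinj h)
      rw [Finsupp.single_apply, if_neg this]
    · intro h
      exact absurd (Finset.mem_univ p) h
  · intro q _
    exact pow_ne_zero _ (hP q).ne_zero

lemma bal_iff {P : ι → ℕ} (hP : ∀ p, (P p).Prime) (hinj : Function.Injective P) {j : ℕ}
    (f : Fin j → ι × Bool) : (∀ p, ee f p = 0) ↔ mp P f true = mp P f false := by
  constructor
  · intro h
    rw [mp_eq, mp_eq]
    apply Finset.prod_congr rfl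
    intro p _
    have := h p
    unfold ee at this
    congr 1
    omega
  · intro h p
    unfold ee
    rw [← mp_fact hP hinj f true p, ← mp_fact hP hinj f false p, h]
    simp

lemma log_sub_ge {m n K : ℕ} (hm : 0 < m) (hn : 0 < n) (hmn : m ≠ n) (h1 : m ≤ K) (h2 : n ≤ K) :
    1 / (K : ℝ) ≤ |Real.log n - Real.log m| := by
  wlog hlt : m < n generalizing m n with H
  · have := H hn hm (Ne.symm hmn) h2 h1 (by omega)
    rwa [abs_sub_comm]
  have hm0 : (0 : ℝ) < m := by exact_mod_cast hm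
  have hn0 : (0 : ℝ) < n := by exact_mod_cast hn
  have hK0 : (0 : ℝ) < K := by
    have : 0 < K := by omega
    exact_mod_cast this
  have h3 : (m : ℝ) + 1 ≤ n := by exact_mod_cast hlt
  have h4 : Real.log (m / n) ≤ m / n - 1 := Real.log_le_sub_one_of_pos (by positivity)
  rw [Real.log_div hm0.ne' hn0.ne'] at h4
  have h5 : (m : ℝ) / n - 1 ≤ -(1 / n) := by
    rw [div_sub_one hn0.ne', ← neg_div, div_le_div_iff_of_pos_right hn0]
    linarith
  have h6 : 1 / (K : ℝ) ≤ 1 / n := by
    apply one_div_le_one_div_of_le hn0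
    exact_mod_cast h2
  refine le_trans ?_ (le_abs_self _)
  linarith

lemma th_zero_or {P : ι → ℕ} (hP : ∀ p, (P p).Prime) (hinj : Function.Injective P) {X : ℕ}
    (hX : 1 ≤ X) (hPX : ∀ p, P p ≤ X) {j : ℕ} (f : Fin j → ι × Bool) :
    ((∀ p, ee f p = 0) ∧ th P f = 0) ∨ (¬ (∀ p, ee f p = 0) ∧ 1 / (X : ℝ) ^ j ≤ |th P f|) := by
  by_cases h : ∀ p, ee f p = 0
  · left
    refine ⟨h, ?_⟩
    rw [th_eq hP, (bal_iff hP hinj f).1 h, sub_self]
  · right
    refine ⟨h, ?_⟩
    have h1 : mp P f true ≠ mp P f false := fun h2 => h ((bal_iff hP hinj f).2 h2)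
    have h2 := log_sub_ge (mp_pos hP f true) (mp_pos hP f false) h1 (mp_le hX hPX f true)
      (mp_le hX hPX f false)
    rw [th_eq hP]
    push_cast at h2
    exact h2

/-- the word in time average -/
lemma time_word {P : ι → ℕ} (hP : ∀ p, (P p).Prime) (hinj : Function.Injective P) {X : ℕ}
    (hX : 1 ≤ X) (hPX : ∀ p, P p ≤ X) {j : ℕ} (f : Fin j → ι × Bool) (V1 V2 : ℝ) :
    ‖(∫ t in V1..V2, ∏ i, ww (et P t) (f i)) - (V2 - V1) * (if ∀ p, ee f p = 0 then 1 else 0 : ℂ)‖ ≤
      2 * (X : ℝ) ^ j := by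
  have hX0 : (0 : ℝ) < (X : ℝ) ^ j := by
    have : (0 : ℝ) < X := by exact_mod_cast (by omega : 0 < X)
    positivity
  simp_rw [word_time]
  rcases th_zero_or hP hinj hX hPX f with ⟨h1, h2⟩ | ⟨h1, h2⟩
  · rw [if_pos h1, h2]
    simp
  · rw [if_neg h1, mul_zero, sub_zero]
    have h3 : th P f ≠ 0 := by
      intro h
      rw [h, abs_zero] at h2
      have : 0 < 1 / (X : ℝ) ^ j := by positivity
      linarith
    have h4 : (th P f : ℂ) * I ≠ 0 := mul_ne_zero (by exact_mod_cast h3) I_ne_zero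
    rw [integral_exp_mul_complex h4, norm_div, norm_mul, Complex.norm_I, mul_one,
      Complex.norm_real, Real.norm_eq_abs, div_le_iff₀ (abs_pos.2 h3)]
    have e : ∀ V : ℝ, ‖Complex.exp ((th P f : ℂ) * I * V)‖ = 1 := by
      intro V
      have : (th P f : ℂ) * I * V = ((th P f * V : ℝ) : ℂ) * I := by push_cast; ring
      rw [this, Complex.norm_exp_ofReal_mul_I]
    have h5 : ‖Complex.exp ((th P f : ℂ) * I * V2) - Complex.exp ((th P f : ℂ) * I * V1)‖ ≤ 2 := by
      refine (norm_sub_le _ _).trans ?_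
      rw [e, e]
      norm_num
    refine h5.trans ?_
    have h6 : 1 ≤ (X : ℝ) ^ j * |th P f| := by
      rw [div_le_iff₀ hX0] at h2
      linarith
    linarith

/-- the sum over primes -/
noncomputable def Xt (P : ι → ℕ) (a : ι → ℂ) (t : ℝ) : ℝ := ∑ p, (a p * et P t p).re

lemma Xt_cont (P : ι → ℕ) (a : ι → ℂ) : Continuous (Xt P a) := by
  unfold Xt et
  fun_prop

/-- **moments against the random model** -/
theorem moment {P : ι → ℕ} (hP : ∀ p, (P p).Prime) (hinj : Function.Injective P) {X : ℕ}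
    (hX : 1 ≤ X) (hPX : ∀ p, P p ≤ X) (a : ι → ℂ) {j N : ℕ} (hN : j < N) (V1 V2 : ℝ) :
    |(∫ t in V1..V2, Xt P a t ^ j) - (V2 - V1) * Er N (fun ω => Xw N a ω ^ j)| ≤
      2 * (X : ℝ) ^ j * (∑ p, ‖a p‖) ^ j := by
  have hcont : ∀ f : Fin j → ι × Bool, Continuous fun t : ℝ => ∏ i, ww (et P t) (f i) := by
    intro f
    simp_rw [word_time]
    fun_prop
  have e1 : ((∫ t in V1..V2, Xt P a t ^ j : ℝ) : ℂ) =
      ∑ f : Fin j → ι × Bool, (∏ i, cc a (f i)) * ∫ t in V1..V2, ∏ i, ww (et P t) (f i) := by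
    rw [← intervalIntegral.integral_ofReal]
    have : ∀ t : ℝ, ((Xt P a t ^ j : ℝ) : ℂ) =
        ∑ f : Fin j → ι × Bool, (∏ i, cc a (f i)) * ∏ i, ww (et P t) (f i) := by
      intro t
      rw [Complex.ofReal_pow]
      exact X_pow a (et P t) j
    simp_rw [this]
    rw [intervalIntegral.integral_finsetSum]
    · apply Finset.sum_congr rfl
      intro f _
      rw [intervalIntegral.integral_const_mul]
    · intro f _
      exact ((hcont f).const_mul _).intervalIntegrable _ _
  have e2 : ((Er N (fun ω : ι → Fin N => Xw N a ω ^ j) : ℝ) : ℂ) =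
      ∑ f : Fin j → ι × Bool, (∏ i, cc a (f i)) * (if ∀ p, ee f p = 0 then 1 else 0 : ℂ) := by
    rw [← Ex_ofReal]
    have : ∀ ω : ι → Fin N, ((Xw N a ω ^ j : ℝ) : ℂ) =
        ∑ f : Fin j → ι × Bool, (∏ i, cc a (f i)) *
          ∏ i, ww (fun p => zr N ^ (ω p : ℕ)) (f i) := by
      intro ω
      rw [Complex.ofReal_pow]
      exact X_pow a (fun p => zr N ^ (ω p : ℕ)) j
    simp_rw [this]
    rw [Ex_sum]
    apply Finset.sum_congr rfl
    intro f _
    rw [Ex_const_mul, Ex_word hN]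
  rw [← Real.norm_eq_abs, ← Complex.norm_real]
  push_cast
  rw [e1, e2, Finset.mul_sum, ← Finset.sum_sub_distrib]
  have e3 : 2 * (X : ℝ) ^ j * (∑ p, ‖a p‖) ^ j =
      ∑ f : Fin j → ι × Bool, (∏ i, ‖cc a (f i)‖) * (2 * (X : ℝ) ^ j) := by
    have hp := Fintype.sum_pow (fun q : ι × Bool => ‖cc a q‖) j
    rw [← Finset.sum_mul, ← hp, Fintype.sum_prod_type, mul_comm]
    congr 2
    apply Finset.sum_congr rfl
    intro p _
    rw [Fintype.sum_bool]
    simp [cc]
  rw [e3]
  refine (norm_sum_le _ _).trans (Finset.sum_le_sum fun f _ => ?_)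
  have e4 : (∏ i, cc a (f i)) * (∫ t in V1..V2, ∏ i, ww (et P t) (f i)) -
      ((V2 : ℂ) - V1) * ((∏ i, cc a (f i)) * (if ∀ p, ee f p = 0 then 1 else 0 : ℂ)) =
      (∏ i, cc a (f i)) * ((∫ t in V1..V2, ∏ i, ww (et P t) (f i)) -
        (V2 - V1) * (if ∀ p, ee f p = 0 then 1 else 0 : ℂ)) := by ring
  rw [e4, norm_mul, norm_prod]
  exact mul_le_mul_of_nonneg_left (time_word hP hinj hX hPX f V1 V2)
    (Finset.prod_nonneg fun _ _ => norm_nonneg _)

end Pool.Agent.H666.CF
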